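import Pool.Agent.Y30.TT.Mfd

/-! Hypersurfaces with a unit normal, and the tube around a product of hypersurfaces. -/

open Set Filter Topology Module
open scoped Manifold ContDiff ENNReal

namespace Pool.Agent.Y30.TT

open Pool.Agent.W556 Pool.Agent.W556.Tube

section chart

variable {V X : Type} [NormedAddCommGroup V] [NormedSpace ℝ V] [TopologicalSpace X]
    [ChartedSpace V X] {F F' : Type} [NormedAddCommGroup F] [NormedSpace ℝ F]
    [NormedAddCommGroup F'] [NormedSpace ℝ F']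

theorem dd_clm (L : F →L[ℝ] F') {g : X → F} (hg : ContMDiff 𝓘(ℝ, V) 𝓘(ℝ, F) ∞ g) (x : X) (v : V) :
    dd V (fun y => L (g y)) x v = L (dd V g x v) := by
  have hs : ContMDiff 𝓘(ℝ, V) 𝓘(ℝ, F') ∞ (fun y => L (g y)) :=
    (L.contDiff (n := ∞)).contMDiff.comp hg
  have h1 := hasFDerivAt_chart hg x
  have h2 := hasFDerivAt_chart hs x
  have h3 := (L.hasFDerivAt).comp (extChartAt 𝓘(ℝ, V) x x) h1
  exact congrArg (fun L : V →L[ℝ] F' => L v) (h2.unique h3)

theorem dd_pair {d s : ℕ} {B : Fin d → X → F} {c : Fin s → X → ℝ}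
    (hB : ∀ j, ContMDiff 𝓘(ℝ, V) 𝓘(ℝ, F) ∞ (B j)) (hc : ∀ a, ContMDiff 𝓘(ℝ, V) 𝓘(ℝ, ℝ) ∞ (c a)) :
    ContMDiff 𝓘(ℝ, V) 𝓘(ℝ, (Fin d → F) × (Fin s → ℝ)) ∞ (fun x => (fun j => B j x, fun a => c a x)) ∧
    ∀ (x : X) (v : V), dd V (fun x => ((fun j => B j x, fun a => c a x) : (Fin d → F) × (Fin s → ℝ))) x v
      = (fun j => dd V (B j) x v, fun a => dd V (c a) x v) := by
  have hs : ContMDiff 𝓘(ℝ, V) 𝓘(ℝ, (Fin d → F) × (Fin s → ℝ)) ∞
      (fun x => ((fun j => B j x, fun a => c a x) : (Fin d → F) × (Fin s → ℝ))) :=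
    (contMDiff_pi_space.2 hB).prodMk_space (contMDiff_pi_space.2 hc)
  refine ⟨hs, fun x v => ?_⟩
  have h2 := hasFDerivAt_chart hs x
  have h3 : HasFDerivAt (fun y => (fun j => B j ((extChartAt 𝓘(ℝ, V) x).symm y)))
      (ContinuousLinearMap.pi fun j => dd V (B j) x) (extChartAt 𝓘(ℝ, V) x x) :=
    hasFDerivAt_pi.2 fun j => hasFDerivAt_chart (hB j) x
  have h4 : HasFDerivAt (fun y => (fun a => c a ((extChartAt 𝓘(ℝ, V) x).symm y)))
      (ContinuousLinearMap.pi fun a => dd V (c a) x) (extChartAt 𝓘(ℝ, V) x x) :=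
    hasFDerivAt_pi.2 fun a => hasFDerivAt_chart (hc a) x
  exact congrArg (fun L : V →L[ℝ] (Fin d → F) × (Fin s → ℝ) => L v) (h2.unique (h3.prodMk h4))

theorem dd_blk {G ν : X → F} {U : X → ℝ} (hG : ContMDiff 𝓘(ℝ, V) 𝓘(ℝ, F) ∞ G)
    (hν : ContMDiff 𝓘(ℝ, V) 𝓘(ℝ, F) ∞ ν) (hU : ContMDiff 𝓘(ℝ, V) 𝓘(ℝ, ℝ) ∞ U) (R r : ℝ) :
    ContMDiff 𝓘(ℝ, V) 𝓘(ℝ, F) ∞ (fun x => R • G x + (r * U x) • ν x) ∧
    ∀ (x : X) (v : V), dd V (fun x => R • G x + (r * U x) • ν x) x v =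
      (R • dd V G x v + (r * U x) • dd V ν x v) + (r * dd V U x v) • ν x := by
  have hc : ContMDiff 𝓘(ℝ, V) 𝓘(ℝ, ℝ) ∞ (fun _ : X => R) := contMDiff_const
  have hm : ContMDiff 𝓘(ℝ, V) 𝓘(ℝ, ℝ) ∞ (fun x => r * U x) := contMDiff_const.mul hU
  have hs : ContMDiff 𝓘(ℝ, V) 𝓘(ℝ, F) ∞ (fun x => R • G x + (r * U x) • ν x) :=
    (hc.smul hG).add (hm.smul hν)
  refine ⟨hs, fun x v => ?_⟩
  have hx : (extChartAt 𝓘(ℝ, V) x).symm (extChartAt 𝓘(ℝ, V) x x) = x := extChartAt_to_inv x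
  have h2 := hasFDerivAt_chart hs x
  have h3 := ((hasFDerivAt_chart hG x).const_smul R).add
    (((hasFDerivAt_chart hU x).const_mul r).smul (hasFDerivAt_chart hν x))
  have h4 := congrArg (fun L : V →L[ℝ] F => L v) (h2.unique h3)
  simp only [add_apply, smul_apply, ContinuousLinearMap.smulRight_apply, smul_eq_mul, hx] at h4
  rw [h4]
  abel

theorem deriv_curve {g : X → F} (hg : ContMDiff 𝓘(ℝ, V) 𝓘(ℝ, F) ∞ g) {γ : ℝ → X}
    (hγ : ContMDiff 𝓘(ℝ, ℝ) 𝓘(ℝ, V) ∞ γ) (t : ℝ) :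
    deriv (g ∘ γ) t = dd V g (γ t) ((mfderiv 𝓘(ℝ, ℝ) 𝓘(ℝ, V) γ t : ℝ →L[ℝ] V) 1) := by
  have h1 : HasMFDerivAt 𝓘(ℝ, V) 𝓘(ℝ, F) g (γ t) (mfderiv 𝓘(ℝ, V) 𝓘(ℝ, F) g (γ t)) :=
    ((hg (γ t)).mdifferentiableAt (by simp)).hasMFDerivAt
  have h2 : HasMFDerivAt 𝓘(ℝ, ℝ) 𝓘(ℝ, V) γ t (mfderiv 𝓘(ℝ, ℝ) 𝓘(ℝ, V) γ t) :=
    ((hγ t).mdifferentiableAt (by simp)).hasMFDerivAt
  have h3 : HasFDerivAt (g ∘ γ) ((dd V g (γ t)).comp (mfderiv 𝓘(ℝ, ℝ) 𝓘(ℝ, V) γ t : ℝ →L[ℝ] V)) t :=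
    (h1.comp t h2).hasFDerivAt
  exact h3.hasDerivAt.deriv

end chart

/-- a hypersurface with a unit normal `ν` and `‖dν v‖ ≤ κ ‖df v‖` -/
structure Hyp (V X : Type) [NormedAddCommGroup V] [NormedSpace ℝ V] [TopologicalSpace X]
    [ChartedSpace V X] (N : ℕ) (κ : ℝ) where
  f : X → EuclideanSpace ℝ (Fin N)
  ν : X → EuclideanSpace ℝ (Fin N)
  hf : ContMDiff 𝓘(ℝ, V) 𝓘(ℝ, EuclideanSpace ℝ (Fin N)) ∞ f
  hν : ContMDiff 𝓘(ℝ, V) 𝓘(ℝ, EuclideanSpace ℝ (Fin N)) ∞ ν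
  unit : ∀ x, ‖ν x‖ = 1
  orth : ∀ x v, inner ℝ (ν x) (dd V f x v) = 0
  inj : ∀ x v, dd V f x v = 0 → v = 0
  shape : ∀ x v, ‖dd V ν x v‖ ≤ κ * ‖dd V f x v‖

namespace Hyp

variable {V X : Type} [NormedAddCommGroup V] [NormedSpace ℝ V] [TopologicalSpace X]
    [ChartedSpace V X] {N : ℕ} {κ : ℝ} (H : Hyp V X N κ)

theorem immersion : IsImmersion V H.f :=
  ⟨H.hf, fun x => (injective_iff_map_eq_zero (differential V H.f x)).2 (H.inj x)⟩

theorem proj_norm (dim : Module.finrank ℝ V + 1 = N) (x : X) (z : EuclideanSpace ℝ (Fin N)) :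
    ‖(normalSpace V H.f x).starProjection z‖ = |inner ℝ (H.ν x) z| := by
  have h1 : Module.finrank ℝ (normalSpace V H.f x) = 1 := by
    have h1 := Submodule.finrank_add_finrank_orthogonal
      (LinearMap.range (differential V H.f x).toLinearMap)
    rw [LinearMap.finrank_range_of_inj (H.immersion.2 x), finrank_euclideanSpace,
      Fintype.card_fin] at h1
    have h2 : Module.finrank ℝ (LinearMap.range (differential V H.f x).toLinearMap)ᗮ = 1 := by
      omega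
    exact h2
  set K := normalSpace V H.f x with hK
  have hn : H.ν x ∈ K := by
    rw [hK, normalSpace, Submodule.mem_orthogonal]
    rintro _ ⟨v, rfl⟩
    rw [real_inner_comm]
    exact H.orth x v
  have hn0 : (⟨H.ν x, hn⟩ : K) ≠ 0 := by
    intro h
    have h2 := congrArg Subtype.val h
    have h3 := H.unit x
    have h4 : H.ν x = 0 := h2
    rw [h4, norm_zero] at h3
    exact zero_ne_one h3
  obtain ⟨c, hc⟩ := exists_smul_eq_of_finrank_eq_one h1 hn0 ⟨K.starProjection z, K.starProjection_apply_mem z⟩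
  have hc' : c • H.ν x = K.starProjection z := congrArg Subtype.val hc
  have h5 : inner ℝ (H.ν x) z = c := by
    have h6 : inner ℝ (H.ν x) (z - K.starProjection z) = 0 :=
      (Submodule.mem_orthogonal K _).1 (K.sub_starProjection_mem_orthogonal z) _ hn
    rw [inner_sub_right, sub_eq_zero] at h6
    rw [h6, ← hc', inner_smul_right, real_inner_self_eq_norm_sq, H.unit]
    ring
  rw [h5, ← hc', norm_smul, H.unit, mul_one, Real.norm_eq_abs]

theorem curvature_le (dim : Module.finrank ℝ V + 1 = N) :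
    curvature V H.f ≤ ENNReal.ofReal κ := by
  refine iSup_le fun γ => iSup_le fun hγ => iSup_le fun hsp => ?_
  apply ENNReal.ofReal_le_ofReal
  rw [H.proj_norm dim]
  have hg : ContDiff ℝ ∞ (H.f ∘ γ) := Pool.Agent.W556.Tube.Data.comp_smooth H.hf hγ
  have hg2 : Differentiable ℝ (deriv (H.f ∘ γ)) :=
    ((contDiff_infty_iff_deriv.1 hg).2).differentiable (by simp)
  have hn : ContDiff ℝ ∞ (H.ν ∘ γ) := Pool.Agent.W556.Tube.Data.comp_smooth H.hν hγ
  have hn1 : Differentiable ℝ (H.ν ∘ γ) := hn.differentiable (by simp)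
  have h1 : HasDerivAt (fun t => inner ℝ ((H.ν ∘ γ) t) (deriv (H.f ∘ γ) t))
      (inner ℝ ((H.ν ∘ γ) 0) (deriv (deriv (H.f ∘ γ)) 0) +
        inner ℝ (deriv (H.ν ∘ γ) 0) (deriv (H.f ∘ γ) 0)) 0 :=
    (hn1 0).hasDerivAt.inner ℝ (hg2 0).hasDerivAt
  have h2 : (fun t => inner ℝ ((H.ν ∘ γ) t) (deriv (H.f ∘ γ) t)) = fun _ => (0 : ℝ) := by
    funext t
    rw [deriv_curve H.hf hγ]
    exact H.orth _ _
  rw [h2] at h1
  have h3 := h1.unique (hasDerivAt_const (0 : ℝ) (0 : ℝ))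
  have h4 : inner ℝ (H.ν (γ 0)) (deriv (deriv (H.f ∘ γ)) 0) =
      - inner ℝ (deriv (H.ν ∘ γ) 0) (deriv (H.f ∘ γ) 0) := by
    have : inner ℝ (H.ν (γ 0)) (deriv (deriv (H.f ∘ γ)) 0) +
      inner ℝ (deriv (H.ν ∘ γ) 0) (deriv (H.f ∘ γ) 0) = 0 := h3
    linarith
  rw [h4, abs_neg]
  refine (abs_real_inner_le_norm _ _).trans ?_
  rw [hsp, mul_one]
  have h5 := H.shape (γ 0) ((mfderiv 𝓘(ℝ, ℝ) 𝓘(ℝ, V) γ 0 : ℝ →L[ℝ] V) 1)
  rw [← deriv_curve H.hf hγ, ← deriv_curve H.hν hγ, hsp, mul_one] at h5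
  exact h5

end Hyp

section asm

variable {d s M N : ℕ}

/-- assembling blocks of coordinates -/
noncomputable def asm (e : Fin N ≃ (Fin d × Fin M) ⊕ Fin s) :
    (Fin d → EuclideanSpace ℝ (Fin M)) × (Fin s → ℝ) →L[ℝ] EuclideanSpace ℝ (Fin N) :=
  LinearMap.toContinuousLinearMap
    { toFun := fun B => WithLp.toLp 2 fun i => Sum.elim (fun p => B.1 p.1 p.2) B.2 (e i)
      map_add' := by
        intro B C
        ext i
        rcases h : e i with p | a <;> simp [h]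
      map_smul' := by
        intro c B
        ext i
        rcases h : e i with p | a <;> simp [h] }

theorem asm_apply (e : Fin N ≃ (Fin d × Fin M) ⊕ Fin s)
    (B : (Fin d → EuclideanSpace ℝ (Fin M)) × (Fin s → ℝ)) (i : Fin N) :
    asm e B i = Sum.elim (fun p => B.1 p.1 p.2) B.2 (e i) := rfl

theorem asm_inner (e : Fin N ≃ (Fin d × Fin M) ⊕ Fin s)
    (B C : (Fin d → EuclideanSpace ℝ (Fin M)) × (Fin s → ℝ)) :
    inner ℝ (asm e B) (asm e C) = (∑ j, inner ℝ (B.1 j) (C.1 j)) + ∑ a, B.2 a * C.2 a := by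
  rw [PiLp.inner_apply]
  have h1 : ∀ i, inner ℝ ((asm e B) i) ((asm e C) i) =
      (fun p : (Fin d × Fin M) ⊕ Fin s => Sum.elim (fun p => B.1 p.1 p.2) B.2 p *
        Sum.elim (fun p => C.1 p.1 p.2) C.2 p) (e i) := by
    intro i
    rw [asm_apply, asm_apply]
    simp only [RCLike.inner_apply, conj_trivial]
    ring
  rw [Finset.sum_congr rfl fun i _ => h1 i]
  rw [Equiv.sum_comp e (fun p : (Fin d × Fin M) ⊕ Fin s => Sum.elim (fun p => B.1 p.1 p.2) B.2 p *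
        Sum.elim (fun p => C.1 p.1 p.2) C.2 p), Fintype.sum_sum_type, Fintype.sum_prod_type]
  congr 1
  refine Finset.sum_congr rfl fun j _ => ?_
  rw [PiLp.inner_apply]
  refine Finset.sum_congr rfl fun b _ => ?_
  simp only [RCLike.inner_apply, conj_trivial, Sum.elim_inl]
  ring

theorem asm_norm (e : Fin N ≃ (Fin d × Fin M) ⊕ Fin s)
    (B : (Fin d → EuclideanSpace ℝ (Fin M)) × (Fin s → ℝ)) :
    ‖asm e B‖ ^ 2 = (∑ j, ‖B.1 j‖ ^ 2) + ∑ a, B.2 a ^ 2 := by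
  rw [← real_inner_self_eq_norm_sq, asm_inner]
  congr 1
  · exact Finset.sum_congr rfl fun j _ => real_inner_self_eq_norm_sq _
  · exact Finset.sum_congr rfl fun a _ => (sq _).symm

end asm

/-- blocks: hypersurfaces `G j` with normals `Nu j`, and a map `U` to the unit sphere -/
structure Blocks (V X : Type) [NormedAddCommGroup V] [NormedSpace ℝ V] [TopologicalSpace X]
    [ChartedSpace V X] (d s M : ℕ) (κ : ℝ) where
  G : Fin d → X → EuclideanSpace ℝ (Fin M)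
  Nu : Fin d → X → EuclideanSpace ℝ (Fin M)
  U : Fin d ⊕ Fin s → X → ℝ
  hG : ∀ j, ContMDiff 𝓘(ℝ, V) 𝓘(ℝ, EuclideanSpace ℝ (Fin M)) ∞ (G j)
  hN : ∀ j, ContMDiff 𝓘(ℝ, V) 𝓘(ℝ, EuclideanSpace ℝ (Fin M)) ∞ (Nu j)
  hU : ∀ j, ContMDiff 𝓘(ℝ, V) 𝓘(ℝ, ℝ) ∞ (U j)
  hU1 : ∀ x, ∑ j, U j x ^ 2 = 1
  unit : ∀ j x, ‖Nu j x‖ = 1
  le : ∀ j x, ‖G j x‖ ≤ 1
  orth : ∀ j x v, inner ℝ (Nu j x) (dd V (G j) x v) = 0
  shape : ∀ j x v, ‖dd V (Nu j) x v‖ ≤ κ * ‖dd V (G j) x v‖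
  inj : ∀ x (v : V), (∀ j, dd V (U j) x v = 0) → (∀ j, dd V (G j) x v = 0) → v = 0

namespace Blocks

variable {V X : Type} [NormedAddCommGroup V] [NormedSpace ℝ V] [TopologicalSpace X]
    [ChartedSpace V X] {d s M N : ℕ} {κ : ℝ} (D : Blocks V X d s M κ)
    (e : Fin N ≃ (Fin d × Fin M) ⊕ Fin s) (R r : ℝ)

/-- the tube map -/
noncomputable def F (x : X) : EuclideanSpace ℝ (Fin N) :=
  asm e (fun j => R • D.G j x + (r * D.U (.inl j) x) • D.Nu j x, fun a => r * D.U (.inr a) x)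

theorem F_smooth : ContMDiff 𝓘(ℝ, V) 𝓘(ℝ, EuclideanSpace ℝ (Fin N)) ∞ (D.F e R r) := by
  have h1 := (dd_pair (V := V) (B := fun j x => R • D.G j x + (r * D.U (.inl j) x) • D.Nu j x)
    (c := fun a x => r * D.U (.inr a) x)
    (fun j => (dd_blk (D.hG j) (D.hN j) (D.hU _) R r).1) (fun a => contMDiff_const.mul (D.hU _))).1
  exact ((asm e).contDiff (n := ∞)).contMDiff.comp h1

theorem dF (x : X) (v : V) : dd V (D.F e R r) x v =
    asm e (fun j => (R • dd V (D.G j) x v + (r * D.U (.inl j) x) • dd V (D.Nu j) x v) +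
      (r * dd V (D.U (.inl j)) x v) • D.Nu j x, fun a => r * dd V (D.U (.inr a)) x v) := by
  have h1 := (dd_pair (V := V) (B := fun j x => R • D.G j x + (r * D.U (.inl j) x) • D.Nu j x)
    (c := fun a x => r * D.U (.inr a) x)
    (fun j => (dd_blk (D.hG j) (D.hN j) (D.hU _) R r).1) (fun a => contMDiff_const.mul (D.hU _)))
  have h2 : dd V (D.F e R r) x v = _ := dd_clm (asm e) h1.1 x v
  rw [h2, h1.2]
  congr 1
  apply Prod.ext
  · funext j
    exact (dd_blk (D.hG j) (D.hN j) (D.hU _) R r).2 x v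
  · funext a
    have h3 := dd_clm (ContinuousLinearMap.lsmul ℝ ℝ r : ℝ →L[ℝ] ℝ) (D.hU (.inr a)) x v
    simpa using h3

theorem U_dU (x : X) (v : V) : ∑ j, D.U j x * dd V (D.U j) x v = 0 := by
  have hx : (extChartAt 𝓘(ℝ, V) x).symm (extChartAt 𝓘(ℝ, V) x x) = x := extChartAt_to_inv x
  have h1 : HasFDerivAt (fun y => ∑ j, D.U j ((extChartAt 𝓘(ℝ, V) x).symm y) *
      D.U j ((extChartAt 𝓘(ℝ, V) x).symm y)) _ (extChartAt 𝓘(ℝ, V) x x) :=
    HasFDerivAt.fun_sum fun j _ => (hasFDerivAt_chart (D.hU j) x).mul (hasFDerivAt_chart (D.hU j) x)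
  have h2 : HasFDerivAt (fun y => ∑ j, D.U j ((extChartAt 𝓘(ℝ, V) x).symm y) *
      D.U j ((extChartAt 𝓘(ℝ, V) x).symm y)) (0 : V →L[ℝ] ℝ) (extChartAt 𝓘(ℝ, V) x x) := by
    have : (fun y => ∑ j, D.U j ((extChartAt 𝓘(ℝ, V) x).symm y) *
      D.U j ((extChartAt 𝓘(ℝ, V) x).symm y)) = fun _ => (1 : ℝ) := by
      funext y
      rw [← D.hU1 ((extChartAt 𝓘(ℝ, V) x).symm y)]
      exact Finset.sum_congr rfl fun j _ => (sq _).symm
    rw [this]
    exact hasFDerivAt_const _ _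
  have h3 := congrArg (fun L : V →L[ℝ] ℝ => L v) (h1.unique h2)
  simp only [sum_apply, add_apply,
    smul_apply, smul_eq_mul, hx, zero_apply] at h3
  simp_rw [← two_mul] at h3
  rw [← Finset.mul_sum] at h3
  linarith

theorem N_dN (j : Fin d) (x : X) (v : V) : inner ℝ (D.Nu j x) (dd V (D.Nu j) x v) = 0 := by
  have hx : (extChartAt 𝓘(ℝ, V) x).symm (extChartAt 𝓘(ℝ, V) x x) = x := extChartAt_to_inv x
  have h0 := hasFDerivAt_chart (D.hN j) x
  have h1 := h0.inner ℝ h0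
  have h2 : (fun y => inner ℝ (D.Nu j ((extChartAt 𝓘(ℝ, V) x).symm y))
      (D.Nu j ((extChartAt 𝓘(ℝ, V) x).symm y))) = fun _ => (1 : ℝ) := by
    funext y
    rw [real_inner_self_eq_norm_sq, D.unit]
    norm_num
  rw [h2] at h1
  have h3 := congrArg (fun L : V →L[ℝ] ℝ => L v) (h1.unique (hasFDerivAt_const _ _))
  simp only [ContinuousLinearMap.comp_apply, fderivInnerCLM_apply, ContinuousLinearMap.prod_apply,
    hx, zero_apply] at h3
  rw [real_inner_comm (D.Nu j x) (dd V (D.Nu j) x v)] at h3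
  linarith

theorem U_le (x : X) (j : Fin d ⊕ Fin s) : |D.U j x| ≤ 1 := by
  have h7 : D.U j x ^ 2 ≤ 1 := by
    rw [← D.hU1 x]
    exact Finset.single_le_sum (f := fun j => D.U j x ^ 2) (fun i _ => sq_nonneg _)
      (Finset.mem_univ j)
  exact abs_le_one_iff_mul_self_le_one.2 (by nlinarith)

theorem norm_blk {A n : EuclideanSpace ℝ (Fin M)} (hn : ‖n‖ = 1) (hA : inner ℝ n A = 0) (c : ℝ) :
    ‖A + c • n‖ ^ 2 = ‖A‖ ^ 2 + c ^ 2 := by
  rw [norm_add_sq_real, inner_smul_right, real_inner_comm, hA, norm_smul, hn, mul_one,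
    Real.norm_eq_abs, sq_abs]
  ring

theorem orthA (j : Fin d) (x : X) (v : V) : inner ℝ (D.Nu j x)
    (R • dd V (D.G j) x v + (r * D.U (.inl j) x) • dd V (D.Nu j) x v) = 0 := by
  rw [inner_add_right, inner_smul_right, inner_smul_right, D.orth, D.N_dN]
  ring

theorem norm_dF (x : X) (v : V) : ‖dd V (D.F e R r) x v‖ ^ 2 =
    (∑ j, (‖R • dd V (D.G j) x v + (r * D.U (.inl j) x) • dd V (D.Nu j) x v‖ ^ 2 +
      (r * dd V (D.U (.inl j)) x v) ^ 2)) + ∑ a, (r * dd V (D.U (.inr a)) x v) ^ 2 := by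
  rw [D.dF, asm_norm]
  congr 1
  exact Finset.sum_congr rfl fun j _ => norm_blk (D.unit j x) (D.orthA R r j x v) _

theorem A_ge {r : ℝ} (hr : 0 < r) (hκ : 0 < κ) (j : Fin d) (x : X) (v : V) :
    r * κ * ‖dd V (D.G j) x v‖ ≤
      ‖(2 * r * κ) • dd V (D.G j) x v + (r * D.U (.inl j) x) • dd V (D.Nu j) x v‖ ∧
    r * ‖D.U (.inl j) x • dd V (D.Nu j) x v‖ ≤
      ‖(2 * r * κ) • dd V (D.G j) x v + (r * D.U (.inl j) x) • dd V (D.Nu j) x v‖ := by
  have h1 := D.shape j x v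
  have h2 := D.U_le x (.inl j)
  have h3 : ‖(r * D.U (.inl j) x) • dd V (D.Nu j) x v‖ ≤ r * κ * ‖dd V (D.G j) x v‖ := by
    rw [norm_smul, Real.norm_eq_abs, abs_mul, abs_of_pos hr]
    have h4 : |D.U (.inl j) x| * ‖dd V (D.Nu j) x v‖ ≤ 1 * (κ * ‖dd V (D.G j) x v‖) :=
      mul_le_mul h2 h1 (norm_nonneg _) zero_le_one
    calc r * |D.U (.inl j) x| * ‖dd V (D.Nu j) x v‖
        = r * (|D.U (.inl j) x| * ‖dd V (D.Nu j) x v‖) := by ring
      _ ≤ r * (1 * (κ * ‖dd V (D.G j) x v‖)) := mul_le_mul_of_nonneg_left h4 hr.le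
      _ = _ := by ring
  have h4 : ‖(2 * r * κ) • dd V (D.G j) x v‖ = 2 * r * κ * ‖dd V (D.G j) x v‖ := by
    rw [norm_smul, Real.norm_eq_abs, abs_of_pos (by positivity)]
  have h5 : ‖(2 * r * κ) • dd V (D.G j) x v‖ - ‖(r * D.U (.inl j) x) • dd V (D.Nu j) x v‖ ≤
      ‖(2 * r * κ) • dd V (D.G j) x v + (r * D.U (.inl j) x) • dd V (D.Nu j) x v‖ := by
    have h6 := norm_sub_norm_le ((2 * r * κ) • dd V (D.G j) x v)
      (-((r * D.U (.inl j) x) • dd V (D.Nu j) x v))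
    rw [norm_neg, sub_neg_eq_add] at h6
    exact h6
  have h6 : r * ‖D.U (.inl j) x • dd V (D.Nu j) x v‖ =
      ‖(r * D.U (.inl j) x) • dd V (D.Nu j) x v‖ := by
    rw [mul_smul, norm_smul r, Real.norm_eq_abs, abs_of_pos hr]
  constructor
  · linarith
  · rw [h6]; linarith

/-- the boundary of the tube -/
noncomputable def hyp {r : ℝ} (hr : 0 < r) (hκ : 0 < κ) : Hyp V X N (1 / r) where
  f := D.F e (2 * r * κ) r
  ν := D.F e 0 1
  hf := D.F_smooth e _ _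
  hν := D.F_smooth e _ _
  unit x := by
    have h : ‖D.F e 0 1 x‖ ^ 2 = 1 := by
      have hU := D.hU1 x
      rw [Fintype.sum_sum_type] at hU
      rw [F, asm_norm]
      refine Eq.trans ?_ hU
      congr 1
      · refine Finset.sum_congr rfl fun j _ => ?_
        change ‖(0 : ℝ) • D.G j x + (1 * D.U (.inl j) x) • D.Nu j x‖ ^ 2 = _
        rw [zero_smul, zero_add, norm_smul, D.unit, mul_one, Real.norm_eq_abs, sq_abs, one_mul]
      · refine Finset.sum_congr rfl fun a _ => ?_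
        change (1 * D.U (.inr a) x) ^ 2 = _
        rw [one_mul]
    have h0 := norm_nonneg (D.F e 0 1 x)
    nlinarith
  orth x v := by
    rw [D.dF, F, asm_inner]
    have h1 : ∀ j, inner ℝ ((0 : ℝ) • D.G j x + (1 * D.U (.inl j) x) • D.Nu j x)
        (((2 * r * κ) • dd V (D.G j) x v + (r * D.U (.inl j) x) • dd V (D.Nu j) x v) +
          (r * dd V (D.U (.inl j)) x v) • D.Nu j x) =
        r * (D.U (.inl j) x * dd V (D.U (.inl j)) x v) := by
      intro j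
      rw [zero_smul, zero_add, inner_smul_left, inner_add_right, D.orthA, inner_smul_right,
        real_inner_self_eq_norm_sq, D.unit]
      simp only [conj_trivial]
      ring
    simp_rw [h1]
    have h2 := D.U_dU x v
    rw [Fintype.sum_sum_type] at h2
    have h3 : ∀ a, 1 * D.U (.inr a) x * (r * dd V (D.U (.inr a)) x v) =
        r * (D.U (.inr a) x * dd V (D.U (.inr a)) x v) := fun a => by ring
    simp_rw [h3]
    rw [← Finset.mul_sum, ← Finset.mul_sum, ← mul_add, h2, mul_zero]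
  inj x v hv := by
    have h1 := D.norm_dF e (2 * r * κ) r x v
    rw [hv, norm_zero] at h1
    have h2 : ∀ j, 0 ≤ (‖(2 * r * κ) • dd V (D.G j) x v +
        (r * D.U (.inl j) x) • dd V (D.Nu j) x v‖ ^ 2 + (r * dd V (D.U (.inl j)) x v) ^ 2) :=
      fun j => by positivity
    have h3 : ∀ a, 0 ≤ (r * dd V (D.U (.inr a)) x v) ^ 2 := fun a => sq_nonneg _
    have s1 := Finset.sum_nonneg fun j (_ : j ∈ Finset.univ) => h2 j
    have s2 := Finset.sum_nonneg fun a (_ : a ∈ Finset.univ) => h3 a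
    have z1 := (Finset.sum_eq_zero_iff_of_nonneg fun j _ => h2 j).1 (by linarith)
    have z2 := (Finset.sum_eq_zero_iff_of_nonneg fun a _ => h3 a).1 (by linarith)
    refine D.inj x v ?_ ?_
    · rintro (j | a)
      · have h := z1 j (Finset.mem_univ _)
        have h4 : (r * dd V (D.U (.inl j)) x v) ^ 2 = 0 := by
          have h5 := sq_nonneg (‖(2 * r * κ) • dd V (D.G j) x v +
            (r * D.U (.inl j) x) • dd V (D.Nu j) x v‖)
          have h6 := sq_nonneg (r * dd V (D.U (.inl j)) x v)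
          linarith
        exact (mul_eq_zero.1 (pow_eq_zero_iff (two_ne_zero)|>.1 h4)).resolve_left hr.ne'
      · have h := z2 a (Finset.mem_univ _)
        exact (mul_eq_zero.1 (pow_eq_zero_iff (two_ne_zero)|>.1 h)).resolve_left hr.ne'
    · intro j
      have h := z1 j (Finset.mem_univ _)
      have h4 : ‖(2 * r * κ) • dd V (D.G j) x v +
            (r * D.U (.inl j) x) • dd V (D.Nu j) x v‖ ^ 2 = 0 := by
        have h5 := sq_nonneg (‖(2 * r * κ) • dd V (D.G j) x v +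
          (r * D.U (.inl j) x) • dd V (D.Nu j) x v‖)
        have h6 := sq_nonneg (r * dd V (D.U (.inl j)) x v)
        linarith
      have h5 := pow_eq_zero_iff (two_ne_zero)|>.1 h4
      have h6 := (D.A_ge hr hκ j x v).1
      rw [h5] at h6
      have h7 : ‖dd V (D.G j) x v‖ ≤ 0 := by
        by_contra hlt
        push Not at hlt
        have := mul_pos (mul_pos hr hκ) hlt
        linarith
      exact norm_le_zero_iff.1 h7
  shape x v := by
    have h1 := D.norm_dF e (2 * r * κ) r x v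
    have h2 := D.norm_dF e 0 1 x v
    have h3 : ‖dd V (D.F e 0 1) x v‖ ^ 2 ≤ (1 / r * ‖dd V (D.F e (2 * r * κ) r) x v‖) ^ 2 := by
      rw [mul_pow, h1, h2, mul_add, Finset.mul_sum, Finset.mul_sum]
      apply add_le_add
      · refine Finset.sum_le_sum fun j _ => ?_
        have h4 := (D.A_ge hr hκ j x v).2
        rw [zero_smul, zero_add, one_mul, one_mul, mul_add]
        apply add_le_add
        · have h5 : ‖D.U (.inl j) x • dd V (D.Nu j) x v‖ ≤ 1 / r *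
              ‖(2 * r * κ) • dd V (D.G j) x v + (r * D.U (.inl j) x) • dd V (D.Nu j) x v‖ := by
            rw [one_div, inv_mul_eq_div, le_div_iff₀ hr]
            linarith
          calc _ ≤ (1 / r * ‖(2 * r * κ) • dd V (D.G j) x v +
              (r * D.U (.inl j) x) • dd V (D.Nu j) x v‖) ^ 2 :=
                pow_le_pow_left₀ (norm_nonneg _) h5 2
            _ = _ := by rw [mul_pow]
        · apply le_of_eq
          field_simp
      · refine Finset.sum_le_sum fun a _ => ?_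
        apply le_of_eq
        field_simp
    exact (sq_le_sq₀ (norm_nonneg _) (by positivity)).1 h3

theorem hyp_norm {r : ℝ} (hr : 0 < r) (hκ : 0 < κ) (x : X) :
    ‖(D.hyp e hr hκ).f x‖ ≤ r * (2 * κ * √d + 1) := by
  have hU1 := D.hU1 x
  rw [Fintype.sum_sum_type] at hU1
  have h1 : ‖(D.hyp e hr hκ).f x‖ ^ 2 ≤
      r ^ 2 * (4 * κ ^ 2 * d + 4 * κ * ∑ j : Fin d, |D.U (.inl j) x| + 1) := by
    change ‖D.F e (2 * r * κ) r x‖ ^ 2 ≤ _
    rw [F, asm_norm]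
    have h2 : ∀ j, ‖(2 * r * κ) • D.G j x + (r * D.U (.inl j) x) • D.Nu j x‖ ^ 2 ≤
        r ^ 2 * (4 * κ ^ 2 + 4 * κ * |D.U (.inl j) x| + D.U (.inl j) x ^ 2) := by
      intro j
      have h3 : ‖(2 * r * κ) • D.G j x + (r * D.U (.inl j) x) • D.Nu j x‖ ≤
          2 * r * κ + r * |D.U (.inl j) x| := by
        refine (norm_add_le _ _).trans (add_le_add ?_ ?_)
        · rw [norm_smul, Real.norm_eq_abs, abs_of_pos (by positivity)]
          exact mul_le_of_le_one_right (by positivity) (D.le j x)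
        · rw [norm_smul, D.unit, mul_one, Real.norm_eq_abs, abs_mul, abs_of_pos hr]
      calc _ ≤ (2 * r * κ + r * |D.U (.inl j) x|) ^ 2 := pow_le_pow_left₀ (norm_nonneg _) h3 2
        _ = _ := by
          rw [← sq_abs (D.U (.inl j) x)]
          ring
    calc _ ≤ (∑ j, r ^ 2 * (4 * κ ^ 2 + 4 * κ * |D.U (.inl j) x| + D.U (.inl j) x ^ 2)) +
        ∑ a, (r * D.U (.inr a) x) ^ 2 := by
          exact add_le_add (Finset.sum_le_sum fun j _ => h2 j) le_rfl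
      _ = _ := by
        have h3 : ∀ a, (r * D.U (.inr a) x) ^ 2 = r ^ 2 * D.U (.inr a) x ^ 2 := fun a => by ring
        simp_rw [h3]
        rw [← Finset.mul_sum, ← Finset.mul_sum, ← mul_add, Finset.sum_add_distrib,
          Finset.sum_add_distrib]
        congr 1
        have e1 : ∑ j : Fin d, 4 * κ * |D.U (.inl j) x| = 4 * κ * ∑ j : Fin d, |D.U (.inl j) x| :=
          (Finset.mul_sum _ _ _).symm
        simp only [Finset.sum_const, Finset.card_univ, Fintype.card_fin, nsmul_eq_mul]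
        linarith
  have hcs : ∑ j : Fin d, |D.U (.inl j) x| ≤ √d := by
    apply Real.le_sqrt_of_sq_le
    have h := sq_sum_le_card_mul_sum_sq (s := (Finset.univ : Finset (Fin d)))
      (f := fun j => |D.U (.inl j) x|)
    have h2 : ∑ j : Fin d, |D.U (.inl j) x| ^ 2 ≤ 1 := by
      have h3 : 0 ≤ ∑ a : Fin s, D.U (.inr a) x ^ 2 := Finset.sum_nonneg fun _ _ => sq_nonneg _
      simp_rw [sq_abs]
      linarith
    have h4 : (0 : ℝ) ≤ d := by positivity
    simp only [Finset.card_univ, Fintype.card_fin] at h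
    nlinarith
  have hl : (√(d : ℝ)) ^ 2 = d := Real.sq_sqrt (by positivity)
  have h3 : ‖(D.hyp e hr hκ).f x‖ ^ 2 ≤ (r * (2 * κ * √d + 1)) ^ 2 := by
    refine h1.trans ?_
    rw [mul_pow]
    apply mul_le_mul_of_nonneg_left _ (sq_nonneg r)
    have h4 : 4 * κ * ∑ j : Fin d, |D.U (.inl j) x| ≤ 4 * κ * √d :=
      mul_le_mul_of_nonneg_left hcs (by positivity)
    have h5 : (2 * κ * √d + 1) ^ 2 = 4 * κ ^ 2 * (√(d : ℝ)) ^ 2 + 4 * κ * √d + 1 := by ring
    rw [h5, hl]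
    linarith
  exact (sq_le_sq₀ (norm_nonneg _) (by positivity)).1 h3

end Blocks

end Pool.Agent.Y30.TT
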