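import Pool.Agent.W556.TubeImm

/-! Raising the codimension of an immersion does not increase its curvature. -/

open Set Filter Topology
open scoped Manifold ContDiff ENNReal

namespace Pool.Agent.Y30.TT

open Pool.Agent.W556 Pool.Agent.W556.Tube

/-- the isometric inclusion of `ℝ^N` in `ℝ^(N+t)` -/
noncomputable def emb (N t : ℕ) : EuclideanSpace ℝ (Fin N) →ₗᵢ[ℝ] EuclideanSpace ℝ (Fin (N + t)) where
  toFun x := WithLp.toLp 2 (Fin.append x.ofLp (fun _ => (0 : ℝ)))
  map_add' x y := by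
    ext i
    refine Fin.addCases (fun j => ?_) (fun j => ?_) i
    · simp
    · simp
  map_smul' c x := by
    ext i
    refine Fin.addCases (fun j => ?_) (fun j => ?_) i
    · simp
    · simp
  norm_map' x := by
    rw [EuclideanSpace.norm_eq, EuclideanSpace.norm_eq]
    congr 1
    rw [Fin.sum_univ_add]
    simp

theorem exists_emb {N N' : ℕ} (h : N ≤ N') :
    Nonempty (EuclideanSpace ℝ (Fin N) →ₗᵢ[ℝ] EuclideanSpace ℝ (Fin N')) := by
  obtain ⟨t, rfl⟩ := Nat.exists_eq_add_of_le h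
  exact ⟨emb N t⟩

variable {V X : Type} [NormedAddCommGroup V] [NormedSpace ℝ V] [TopologicalSpace X]
    [ChartedSpace V X] {N N' : ℕ}

theorem proj_eq (ι : EuclideanSpace ℝ (Fin N) →ₗᵢ[ℝ] EuclideanSpace ℝ (Fin N'))
    (R : Submodule ℝ (EuclideanSpace ℝ (Fin N))) (z : EuclideanSpace ℝ (Fin N)) :
    ‖((R.map ι.toLinearMap)ᗮ).starProjection (ι z)‖ = ‖Rᗮ.starProjection z‖ := by
  have h1 : ((R.map ι.toLinearMap)ᗮ).starProjection (ι z) = ι (Rᗮ.starProjection z) := by
    rw [Submodule.starProjection_orthogonal_val, Submodule.starProjection_orthogonal_val,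
      map_sub, LinearIsometry.map_starProjection]
  rw [h1, ι.norm_map]

theorem proj_eq' (ι : EuclideanSpace ℝ (Fin N) →ₗᵢ[ℝ] EuclideanSpace ℝ (Fin N'))
    (R : Submodule ℝ (EuclideanSpace ℝ (Fin N))) (K : Submodule ℝ (EuclideanSpace ℝ (Fin N')))
    (hK : K = (R.map ι.toLinearMap)ᗮ) (z : EuclideanSpace ℝ (Fin N)) :
    ‖K.starProjection (ι z)‖ = ‖Rᗮ.starProjection z‖ := by
  subst hK
  exact proj_eq ι R z

theorem raise (ι : EuclideanSpace ℝ (Fin N) →ₗᵢ[ℝ] EuclideanSpace ℝ (Fin N'))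
    {f : X → EuclideanSpace ℝ (Fin N)} (hf : IsImmersion V f) :
    IsImmersion V (ι ∘ f) ∧ curvature V (ι ∘ f) ≤ curvature V f := by
  have hs : ContMDiff 𝓘(ℝ, V) 𝓘(ℝ, EuclideanSpace ℝ (Fin N')) ∞ (ι ∘ f) :=
    (ι.contDiff (n := ∞)).contMDiff.comp hf.1
  have hd : ∀ x v, differential V (ι ∘ f) x v = ι (differential V f x v) := by
    intro x v
    have h1 := hasFDerivAt_chart hf.1 x
    have h2 := hasFDerivAt_chart hs x
    have h3 := (ι.toContinuousLinearMap.hasFDerivAt).comp (extChartAt 𝓘(ℝ, V) x x) h1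
    have h4 := h2.unique h3
    exact congrArg (fun L : V →L[ℝ] EuclideanSpace ℝ (Fin N') => L v) h4
  refine ⟨⟨hs, fun x => ?_⟩, ?_⟩
  · rw [injective_iff_map_eq_zero]
    intro v hv
    rw [hd] at hv
    have h5 : differential V f x v = 0 := by
      have h6 := ι.norm_map (differential V f x v)
      rw [hv, norm_zero] at h6
      exact norm_eq_zero.1 h6.symm
    exact (injective_iff_map_eq_zero (differential V f x)).1 (hf.2 x) v h5
  · refine iSup_le fun γ => iSup_le fun hγ => iSup_le fun hsp => ?_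
    have hg : ContDiff ℝ ∞ (f ∘ γ) := Data.comp_smooth hf.1 hγ
    have hg1 : Differentiable ℝ (f ∘ γ) := hg.differentiable (by simp)
    have hg2 : Differentiable ℝ (deriv (f ∘ γ)) :=
      ((contDiff_infty_iff_deriv.1 hg).2).differentiable (by simp)
    have e1 : deriv ((ι ∘ f) ∘ γ) = fun t => ι (deriv (f ∘ γ) t) := by
      funext t
      exact (ι.toContinuousLinearMap.hasFDerivAt.comp_hasDerivAt t (hg1 t).hasDerivAt).deriv
    have e2 : deriv (deriv ((ι ∘ f) ∘ γ)) 0 = ι (deriv (deriv (f ∘ γ)) 0) := by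
      rw [e1]
      exact (ι.toContinuousLinearMap.hasFDerivAt.comp_hasDerivAt 0 (hg2 0).hasDerivAt).deriv
    have e3 : ‖deriv (f ∘ γ) 0‖ = 1 := by
      rw [e1] at hsp
      rw [← hsp, ι.norm_map]
    have e4 : normalSpace V (ι ∘ f) (γ 0) =
        ((LinearMap.range (differential V f (γ 0)).toLinearMap).map ι.toLinearMap)ᗮ := by
      rw [normalSpace, ← LinearMap.range_comp]
      congr 2
      ext v : 1
      exact hd _ v
    rw [e2, proj_eq' ι _ _ e4]
    exact le_iSup₂_of_le γ hγ (le_iSup_of_le e3 le_rfl)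

end Pool.Agent.Y30.TT
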