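import Pool.Agent.Y30.TT.Tube
import Pool.Agent.Y30.TT.Raise
import Pool.Agent.W556.TubeMfd
import Pool.Agent.W556.CupCycle

/-! The manifolds `T^(p+1) × S^(p+s)` and their immersions. -/

open Set Filter Topology Module
open scoped Manifold ContDiff ENNReal

namespace Pool.Agent.Y30.TT

open Pool.Agent.W556 Pool.Agent.W556.Tube Pool.Agent.W556.Tor

/-- the manifold `T^(p+1) × S^q` -/
abbrev YY (p q : ℕ) : Type := Tr (p + 1) × Sp q

/-- the model space -/
abbrev WW (p q : ℕ) : Type := Eu (p + 1) × Eu q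

noncomputable instance instCS (p q : ℕ) : ChartedSpace (WW p q) (YY p q) :=
  inferInstanceAs (ChartedSpace (ModelProd (Eu (p + 1)) (Eu q)) (Tr (p + 1) × Sp q))

theorem model_eq' (p q : ℕ) : (𝓘(ℝ, WW p q) : ModelWithCorners ℝ (WW p q) (WW p q)) =
    (𝓘(ℝ, Eu (p + 1)).prod 𝓘(ℝ, Eu q) : ModelWithCorners ℝ (WW p q) (WW p q)) :=
  modelWithCornersSelf_prod

instance instIM (p q : ℕ) : IsManifold 𝓘(ℝ, WW p q) ∞ (YY p q) := by
  rw [model_eq']
  exact inferInstanceAs (IsManifold (𝓘(ℝ, Eu (p + 1)).prod 𝓘(ℝ, Eu q)) ∞ (Tr (p + 1) × Sp q))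

theorem fst_smooth' (p q : ℕ) :
    ContMDiff 𝓘(ℝ, WW p q) 𝓘(ℝ, Eu (p + 1)) ∞ (Prod.fst : YY p q → Tr (p + 1)) := by
  rw [model_eq']
  exact contMDiff_fst

theorem snd_smooth' (p q : ℕ) :
    ContMDiff 𝓘(ℝ, WW p q) 𝓘(ℝ, Eu q) ∞ (Prod.snd : YY p q → Sp q) := by
  rw [model_eq']
  exact contMDiff_snd

theorem hasMFDerivAt_fst2 {p q : ℕ} (x : YY p q) :
    HasMFDerivAt 𝓘(ℝ, WW p q) 𝓘(ℝ, Eu (p + 1)) (Prod.fst : YY p q → Tr (p + 1)) x
      (ContinuousLinearMap.fst ℝ (Eu (p + 1)) (Eu q)) := by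
  rw [model_eq']
  exact hasMFDerivAt_fst x

theorem hasMFDerivAt_snd2 {p q : ℕ} (x : YY p q) :
    HasMFDerivAt 𝓘(ℝ, WW p q) 𝓘(ℝ, Eu q) (Prod.snd : YY p q → Sp q) x
      (ContinuousLinearMap.snd ℝ (Eu (p + 1)) (Eu q)) := by
  rw [model_eq']
  exact hasMFDerivAt_snd x

theorem dd_fst2 {p q : ℕ} {g : Tr (p + 1) → ℝ} (hg : ContMDiff 𝓘(ℝ, Eu (p + 1)) 𝓘(ℝ, ℝ) ∞ g)
    (x : YY p q) (v : WW p q) :
    dd (WW p q) (fun y : YY p q => g y.1) x v = dd (Eu (p + 1)) g x.1 v.1 := by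
  have h1 : HasMFDerivAt 𝓘(ℝ, Eu (p + 1)) 𝓘(ℝ, ℝ) g x.1
      (mfderiv 𝓘(ℝ, Eu (p + 1)) 𝓘(ℝ, ℝ) g x.1) :=
    ((hg x.1).mdifferentiableAt (by simp)).hasMFDerivAt
  have h2 := (h1.comp x (hasMFDerivAt_fst2 x)).mfderiv
  exact congrArg (fun L : WW p q →L[ℝ] ℝ => L v) h2

theorem dd_snd2 {p q : ℕ} {F : Type} [NormedAddCommGroup F] [NormedSpace ℝ F] {g : Sp q → F}
    (hg : ContMDiff 𝓘(ℝ, Eu q) 𝓘(ℝ, F) ∞ g)
    (x : YY p q) (v : WW p q) :
    dd (WW p q) (fun y : YY p q => g y.2) x v = dd (Eu q) g x.2 v.2 := by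
  have h1 : HasMFDerivAt 𝓘(ℝ, Eu q) 𝓘(ℝ, F) g x.2
      (mfderiv 𝓘(ℝ, Eu q) 𝓘(ℝ, F) g x.2) :=
    ((hg x.2).mdifferentiableAt (by simp)).hasMFDerivAt
  have h2 := (h1.comp x (hasMFDerivAt_snd2 x)).mfderiv
  exact congrArg (fun L : WW p q →L[ℝ] F => L v) h2

/-- the indices of the sphere -/
def idx (p s : ℕ) : Fin (p + 1) ⊕ Fin s ≃ Fin (p + s + 1) :=
  finSumFinEquiv.trans (finCongr (by omega))

/-- the indices of the ambient space -/
def aidx (p s : ℕ) : Fin (2 * p + 1 + s + 1) ≃ (Fin (p + 1) × Fin 2) ⊕ Fin s :=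
  (finCongr (by ring)).trans
    ((finSumFinEquiv (m := (p + 1) * 2) (n := s)).symm.trans
      (Equiv.sumCongr finProdFinEquiv.symm (Equiv.refl _)))

/-- the data of the tube -/
noncomputable def data (p s : ℕ) :
    Data (WW p (p + s)) (YY p (p + s)) (p + 1) s (2 * p + 1 + s + 1) where
  e := aidx p s
  U j x := crd (idx p s j) x.2
  W b j x := trig (ang b) (ang_periodic b) j x.1
  hU j := (crd_smooth (idx p s j)).comp (snd_smooth' p (p + s))
  hW b j := (trig_smooth (ang b) (ang_periodic b) (ang_smooth b) j).comp (fst_smooth' p (p + s))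
  hU1 x := by
    have h := x.2.2
    rw [mem_sphere_zero_iff_norm] at h
    have h2 : ‖(x.2 : Eu (p + s + 1))‖ ^ 2 = 1 := by rw [h]; norm_num
    rw [EuclideanSpace.norm_sq_eq] at h2
    rw [Equiv.sum_comp (idx p s) (fun j => crd j x.2 ^ 2)]
    simpa [crd] using h2
  hW1 j x := by
    obtain ⟨y, hy⟩ := pr_surj x.1
    rw [← hy, trig_pr, trig_pr]
    exact ang_sq _
  inj x v hUv hWv := by
    obtain ⟨y, hy⟩ := pr_surj x.1
    apply Prod.ext
    · ext j
      have h0 := hWv 0 j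
      have h1 := hWv 1 j
      rw [dd_fst2 (trig_smooth (ang 0) (ang_periodic 0) (ang_smooth 0) j), ← hy,
        trig_deriv (ang 0) (ang_periodic 0) (ang_smooth 0)] at h0
      rw [dd_fst2 (trig_smooth (ang 1) (ang_periodic 1) (ang_smooth 1) j), ← hy,
        trig_deriv (ang 1) (ang_periodic 1) (ang_smooth 1)] at h1
      by_contra hv
      have hv' : v.1 j ≠ 0 := hv
      exact ang_deriv_ne (y j) ⟨(mul_eq_zero.1 h0).resolve_right hv', (mul_eq_zero.1 h1).resolve_right hv'⟩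
    · apply coe_inj x.2
      ext j
      have h := hUv ((idx p s).symm j)
      rw [Equiv.apply_symm_apply, dd_snd2 (crd_smooth j), dd_crd] at h
      exact h
  dim := by
    rw [Module.finrank_prod, finrank_euclideanSpace, finrank_euclideanSpace, Fintype.card_fin,
      Fintype.card_fin]
    ring

/-- the cup-length of `T^(p+1) × S^q` -/
theorem cupLength (p q : ℕ) : CupLengthAtLeast ℝ (YY p q) (p + 1) := by
  let u0 : Sp q := ⟨EuclideanSpace.single 0 1, by simp⟩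
  let s : C(Fin (p + 1) → ℝ, YY p q) :=
    ⟨fun x => (pr (WithLp.toLp 2 x), u0), by
      have h1 : Continuous (fun x : Fin (p + 1) → ℝ => pr (WithLp.toLp 2 x)) :=
        covering.continuous.comp (PiLp.continuous_toLp 2 _)
      exact h1.prodMk continuous_const⟩
  let c0 : Fin (p + 1) → Tr (p + 1) → AddCircle (1 : ℝ) := fun j =>
    Quotient.lift (fun x : Eu (p + 1) => ((x j : ℝ) : AddCircle (1 : ℝ))) (by
      intro a b hab
      have h : -a + b ∈ lat (p + 1) := QuotientAddGroup.leftRel_apply.1 hab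
      obtain ⟨k, hk⟩ := h j
      have h1 : b j = a j + k := by
        rw [PiLp.add_apply, PiLp.neg_apply] at hk
        linarith
      change ((a j : ℝ) : AddCircle (1 : ℝ)) = ((b j : ℝ) : AddCircle (1 : ℝ))
      rw [h1, AddCircle.coe_add]
      have h2 : ((k : ℝ) : AddCircle (1 : ℝ)) = 0 := (AddCircle.coe_eq_zero_iff 1).2 ⟨k, by simp⟩
      rw [h2, add_zero])
  have hc0 : ∀ j, Continuous (c0 j) := fun j =>
    (covering.isQuotientMap pr_surj).continuous_iff.2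
      ((AddCircle.continuous_mk' (p := (1 : ℝ))).comp
        (EuclideanSpace.proj (𝕜 := ℝ) (ι := Fin (p + 1)) j).continuous)
  refine cupLength_of_torus s ?_ (fun j => ⟨fun x => c0 j x.1, (hc0 j).comp continuous_fst⟩) ?_
  · intro x j
    change ((pr _, u0) : YY p q) = (pr _, u0)
    congr 1
    rw [pr_eq_iff]
    intro i
    refine ⟨if i = j then -1 else 0, ?_⟩
    by_cases h : i = j
    · subst h
      simp
    · simp [h]
  · intro j x
    rfl

end Pool.Agent.Y30.TT
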