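import Pool.Agent.Y30.TT.Gen

/-! Periodic hypersurfaces, and the tubes around products of them as closed manifolds. -/

open Set Filter Topology Module
open scoped Manifold ContDiff ENNReal

namespace Pool.Agent.Y30.TT

open Pool.Agent.W556 Pool.Agent.W556.Tube Pool.Agent.W556.Tor

/-- a periodic parametrised hypersurface of `ℝ^(a+1)` -/
structure Per (a : ℕ) (κ : ℝ) where
  g : Eu a → Eu (a + 1)
  ν : Eu a → Eu (a + 1)
  hg : ContDiff ℝ ∞ g
  hν : ContDiff ℝ ∞ ν
  pg : ∀ x z, z ∈ lat a → g (x + z) = g x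
  pν : ∀ x z, z ∈ lat a → ν (x + z) = ν x
  unit : ∀ x, ‖ν x‖ = 1
  le : ∀ x, ‖g x‖ ≤ 1
  orth : ∀ x v, inner ℝ (ν x) (fderiv ℝ g x v) = 0
  shape : ∀ x v, ‖fderiv ℝ ν x v‖ ≤ κ * ‖fderiv ℝ g x v‖
  inj : ∀ x v, fderiv ℝ g x v = 0 → v = 0

theorem dd_eq {n : ℕ} {F : Type} [NormedAddCommGroup F] [NormedSpace ℝ F] (g : Eu n → F) (x v : Eu n) :
    dd (Eu n) g x v = fderiv ℝ g x v := by
  rw [dd, mfderiv_eq_fderiv]

theorem fderiv_lin {n m : ℕ} {F : Type} [NormedAddCommGroup F] [NormedSpace ℝ F] {g : Eu m → F}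
    (hg : ContDiff ℝ ∞ g) (L : Eu n →L[ℝ] Eu m) (x v : Eu n) :
    fderiv ℝ (fun y => g (L y)) x v = fderiv ℝ g (L x) (L v) := by
  have h1 : HasFDerivAt g (fderiv ℝ g (L x)) (L x) := (hg.differentiable (by simp) _).hasFDerivAt
  have h2 := (h1.comp x L.hasFDerivAt).fderiv
  exact congrArg (fun M : Eu n →L[ℝ] F => M v) h2

theorem fderiv_ang {n : ℕ} (b : Fin 2) (j : Fin n) (x v : Eu n) :
    fderiv ℝ (fun y : Eu n => ang b (y j)) x v = deriv (ang b) (x j) * v j := by
  have h4 : HasDerivAt (ang b) (deriv (ang b) (x j)) (x j) :=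
    ((ang_smooth b).differentiable (by simp) (x j)).hasDerivAt
  have h3 : HasFDerivAt (ang b ∘ (EuclideanSpace.proj (𝕜 := ℝ) (ι := Fin n) j))
      ((deriv (ang b) (x j)) • (EuclideanSpace.proj (𝕜 := ℝ) (ι := Fin n) j : Eu n →L[ℝ] ℝ)) x :=
    h4.comp_hasFDerivAt x (EuclideanSpace.proj (𝕜 := ℝ) (ι := Fin n) j).hasFDerivAt
  exact congrArg (fun L : Eu n →L[ℝ] ℝ => L v) h3.fderiv

theorem ang_smooth' {n : ℕ} (b : Fin 2) (j : Fin n) :
    ContDiff ℝ ∞ (fun y : Eu n => ang b (y j)) :=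
  (ang_smooth b).comp (EuclideanSpace.proj (𝕜 := ℝ) (ι := Fin n) j).contDiff

/-- selection of coordinates -/
noncomputable def sel {n m : ℕ} (i : Fin m → Fin n) : Eu n →L[ℝ] Eu m :=
  LinearMap.toContinuousLinearMap
    { toFun := fun x => WithLp.toLp 2 fun j => x (i j)
      map_add' := fun x y => by ext j; simp
      map_smul' := fun c x => by ext j; simp }

theorem sel_apply {n m : ℕ} (i : Fin m → Fin n) (x : Eu n) (j : Fin m) : sel i x j = x (i j) := rfl

theorem sel_lat {n m : ℕ} (i : Fin m → Fin n) {z : Eu n} (hz : z ∈ lat n) : sel i z ∈ lat m := by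
  intro j
  exact hz (i j)

theorem lat_int {n : ℕ} {z : Eu n} (hz : z ∈ lat n) (j : Fin n) : ∃ k : ℤ, z j = k := hz j

theorem ang_per {n : ℕ} (b : Fin 2) (j : Fin n) (x z : Eu n) (hz : z ∈ lat n) :
    ang b ((x + z) j) = ang b (x j) := by
  obtain ⟨k, hk⟩ := lat_int hz j
  rw [PiLp.add_apply, hk]
  have := ((ang_periodic b).int_mul k) (x j)
  rw [mul_one] at this
  exact this

noncomputable def per0 : Per 0 1 where
  g _ := 0
  ν _ := EuclideanSpace.single 0 1
  hg := contDiff_const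
  hν := contDiff_const
  pg _ _ _ := rfl
  pν _ _ _ := rfl
  unit x := by simp
  le x := by simp
  orth x v := by simp
  shape x v := by simp
  inj x v _ := Subsingleton.elim _ _

/-- the blocks of the step -/
noncomputable def stepB {a : ℕ} {κ : ℝ} (P : Per a κ) : Blocks (Eu (a + 1)) (Eu (a + 1)) 1 1 (a + 1) κ where
  G _ x := P.g (sel Fin.castSucc x)
  Nu _ x := P.ν (sel Fin.castSucc x)
  U j x := Sum.elim (fun _ => ang 0 (x (Fin.last a))) (fun _ => ang 1 (x (Fin.last a))) j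
  hG _ := (P.hg.comp (sel Fin.castSucc).contDiff).contMDiff
  hN _ := (P.hν.comp (sel Fin.castSucc).contDiff).contMDiff
  hU j := by
    rcases j with j | j
    · exact (ang_smooth' 0 (Fin.last a)).contMDiff
    · exact (ang_smooth' 1 (Fin.last a)).contMDiff
  hU1 x := by
    rw [Fintype.sum_sum_type]
    simp only [Sum.elim_inl, Sum.elim_inr, Finset.univ_unique, Finset.sum_const, Finset.card_singleton,
      one_smul]
    exact ang_sq _
  unit _ x := P.unit _
  le _ x := P.le _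
  orth _ x v := by
    rw [dd_eq, fderiv_lin P.hg]
    exact P.orth _ _
  shape _ x v := by
    rw [dd_eq, dd_eq, fderiv_lin P.hg, fderiv_lin P.hν]
    exact P.shape _ _
  inj x v hU hG := by
    have h1 := hG 0
    rw [dd_eq, fderiv_lin P.hg] at h1
    have h2 := P.inj _ _ h1
    have h3 := hU (.inl 0)
    have h4 := hU (.inr 0)
    have h3' : dd (Eu (a + 1)) (fun y : Eu (a + 1) => ang 0 (y (Fin.last a))) x v = 0 := h3
    have h4' : dd (Eu (a + 1)) (fun y : Eu (a + 1) => ang 1 (y (Fin.last a))) x v = 0 := h4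
    rw [dd_eq, fderiv_ang] at h3' h4'
    ext i
    refine Fin.lastCases ?_ (fun i => ?_) i
    · by_contra hv
      have hv' : v (Fin.last a) ≠ 0 := hv
      exact ang_deriv_ne (x (Fin.last a))
        ⟨(mul_eq_zero.1 h3').resolve_right hv', (mul_eq_zero.1 h4').resolve_right hv'⟩
    · have h5 := congrArg (fun w : Eu a => w i) h2
      exact h5

def stepE (a : ℕ) : Fin (a + 1 + 1) ≃ (Fin 1 × Fin (a + 1)) ⊕ Fin 1 :=
  (finCongr (by ring)).trans
    ((finSumFinEquiv (m := 1 * (a + 1)) (n := 1)).symm.trans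
      (Equiv.sumCongr finProdFinEquiv.symm (Equiv.refl _)))

noncomputable def step {a : ℕ} {κ : ℝ} (P : Per a κ) (hκ : 0 < κ) : Per (a + 1) (2 * κ + 1) :=
  have hr : 0 < 1 / (2 * κ + 1) := by positivity
  have hF : ∀ (R r : ℝ) (x z : Eu (a + 1)), z ∈ lat (a + 1) →
      (stepB P).F (stepE a) R r (x + z) = (stepB P).F (stepE a) R r x := by
    intro R r x z hz
    have h1 : P.g (sel Fin.castSucc (x + z)) = P.g (sel Fin.castSucc x) := by
      rw [map_add]; exact P.pg _ _ (sel_lat _ hz)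
    have h2 : P.ν (sel Fin.castSucc (x + z)) = P.ν (sel Fin.castSucc x) := by
      rw [map_add]; exact P.pν _ _ (sel_lat _ hz)
    have h3 := ang_per 0 (Fin.last a) x z hz
    have h4 := ang_per 1 (Fin.last a) x z hz
    simp only [Blocks.F, stepB, Sum.elim_inl, Sum.elim_inr, h1, h2, h3, h4]
  { g := ((stepB P).hyp (stepE a) hr hκ).f
    ν := ((stepB P).hyp (stepE a) hr hκ).ν
    hg := contMDiff_iff_contDiff.1 ((stepB P).hyp (stepE a) hr hκ).hf
    hν := contMDiff_iff_contDiff.1 ((stepB P).hyp (stepE a) hr hκ).hν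
    pg := fun x z hz => hF _ _ x z hz
    pν := fun x z hz => hF _ _ x z hz
    unit := ((stepB P).hyp (stepE a) hr hκ).unit
    le := fun x => by
      refine ((stepB P).hyp_norm (stepE a) hr hκ x).trans ?_
      rw [Nat.cast_one, Real.sqrt_one, mul_one, one_div, inv_mul_cancel₀]
      positivity
    orth := fun x v => by
      rw [← dd_eq]
      exact ((stepB P).hyp (stepE a) hr hκ).orth x v
    shape := fun x v => by
      rw [← dd_eq, ← dd_eq]
      have h := ((stepB P).hyp (stepE a) hr hκ).shape x v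
      refine h.trans (le_of_eq ?_)
      congr 1
      exact one_div_one_div _
    inj := fun x v h => by
      rw [← dd_eq] at h
      exact ((stepB P).hyp (stepE a) hr hκ).inj x v h }

theorem exists_per (a : ℕ) : Nonempty (Per a (2 ^ (a + 1) - 1)) := by
  induction a with
  | zero =>
    have h : (2 : ℝ) ^ (0 + 1) - 1 = 1 := by norm_num
    rw [h]
    exact ⟨per0⟩
  | succ a ih =>
    obtain ⟨P⟩ := ih
    have h0 : (0 : ℝ) < 2 ^ (a + 1) - 1 := by
      have : (1 : ℝ) < 2 ^ (a + 1) := one_lt_pow₀ (by norm_num) (by omega)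
      linarith
    have h : (2 : ℝ) ^ (a + 1 + 1) - 1 = 2 * (2 ^ (a + 1) - 1) + 1 := by ring
    rw [h]
    exact ⟨step P h0⟩

section lift

variable {n : ℕ} {F : Type} [NormedAddCommGroup F] [NormedSpace ℝ F]

/-- a periodic function on the torus -/
def lft (h : Eu n → F) (ph : ∀ x z, z ∈ lat n → h (x + z) = h x) : Tr n → F :=
  Quotient.lift h (by
    intro a b hab
    have h1 : -a + b ∈ lat n := QuotientAddGroup.leftRel_apply.1 hab
    have h2 := ph a (-a + b) h1
    rw [← h2]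
    congr 1
    abel)

omit [NormedAddCommGroup F] [NormedSpace ℝ F] in
theorem lft_pr (h : Eu n → F) (ph : ∀ x z, z ∈ lat n → h (x + z) = h x) (x : Eu n) :
    lft h ph (pr x) = h x := rfl

theorem lft_smooth (h : Eu n → F) (ph : ∀ x z, z ∈ lat n → h (x + z) = h x) (hs : ContDiff ℝ ∞ h) :
    ContMDiff 𝓘(ℝ, Eu n) 𝓘(ℝ, F) ∞ (lft h ph) := by
  apply contMDiff_of_comp_pr
  have : lft h ph ∘ pr = h := rfl
  rw [this]
  exact hs

theorem lft_dd (h : Eu n → F) (ph : ∀ x z, z ∈ lat n → h (x + z) = h x) (hs : ContDiff ℝ ∞ h)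
    (x v : Eu n) : dd (Eu n) (lft h ph) (pr x) v = fderiv ℝ h x v := by
  have h1 : HasMFDerivAt 𝓘(ℝ, Eu n) 𝓘(ℝ, F) (lft h ph) (pr x)
      (mfderiv 𝓘(ℝ, Eu n) 𝓘(ℝ, F) (lft h ph) (pr x)) :=
    ((lft_smooth h ph hs (pr x)).mdifferentiableAt (by simp)).hasMFDerivAt
  have h2 := h1.comp x (hasMFDerivAt_pr x)
  have h3 : HasFDerivAt h (fderiv ℝ h x) x := (hs.differentiable (by simp) x).hasFDerivAt
  have h5 := hasMFDerivAt_unique h2 h3.hasMFDerivAt
  exact congrArg (fun L : Eu n →L[ℝ] F => L v) h5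

end lift

theorem dd_fst3 {p q : ℕ} {F : Type} [NormedAddCommGroup F] [NormedSpace ℝ F]
    {g : Tr (p + 1) → F} (hg : ContMDiff 𝓘(ℝ, Eu (p + 1)) 𝓘(ℝ, F) ∞ g)
    (x : YY p q) (v : WW p q) :
    dd (WW p q) (fun y : YY p q => g y.1) x v = dd (Eu (p + 1)) g x.1 v.1 := by
  have h1 : HasMFDerivAt 𝓘(ℝ, Eu (p + 1)) 𝓘(ℝ, F) g x.1
      (mfderiv 𝓘(ℝ, Eu (p + 1)) 𝓘(ℝ, F) g x.1) :=
    ((hg x.1).mdifferentiableAt (by simp)).hasMFDerivAt
  have h2 := (h1.comp x (hasMFDerivAt_fst2 x)).mfderiv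
  exact congrArg (fun L : WW p q →L[ℝ] F => L v) h2

/-- the blocks on `T^(da) × S^(d+s-1)` -/
noncomputable def fin_blocks {a : ℕ} {κ : ℝ} (P : Per a κ) {d s p q : ℕ} (hp : d * a = p + 1)
    (hq : d + s = q + 1) : Blocks (WW p q) (YY p q) d s (a + 1) κ :=
  let ε : Fin d × Fin a ≃ Fin (p + 1) := finProdFinEquiv.trans (finCongr hp)
  let ix : Fin d ⊕ Fin s ≃ Fin (q + 1) := finSumFinEquiv.trans (finCongr hq)
  let L : Fin d → Eu (p + 1) →L[ℝ] Eu a := fun j => sel fun i => ε (j, i)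
  have pg : ∀ j, ∀ x z : Eu (p + 1), z ∈ lat (p + 1) → P.g (L j (x + z)) = P.g (L j x) := by
    intro j x z hz
    rw [map_add]; exact P.pg _ _ (sel_lat _ hz)
  have pν : ∀ j, ∀ x z : Eu (p + 1), z ∈ lat (p + 1) → P.ν (L j (x + z)) = P.ν (L j x) := by
    intro j x z hz
    rw [map_add]; exact P.pν _ _ (sel_lat _ hz)
  have sg : ∀ j, ContDiff ℝ ∞ (fun y => P.g (L j y)) := fun j => P.hg.comp (L j).contDiff
  have sν : ∀ j, ContDiff ℝ ∞ (fun y => P.ν (L j y)) := fun j => P.hν.comp (L j).contDiff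
  { G := fun j x => lft (fun y => P.g (L j y)) (pg j) x.1
    Nu := fun j x => lft (fun y => P.ν (L j y)) (pν j) x.1
    U := fun j x => crd (ix j) x.2
    hG := fun j => (lft_smooth _ (pg j) (sg j)).comp (fst_smooth' p q)
    hN := fun j => (lft_smooth _ (pν j) (sν j)).comp (fst_smooth' p q)
    hU := fun j => (crd_smooth (ix j)).comp (snd_smooth' p q)
    hU1 := fun x => by
      have h := x.2.2
      rw [mem_sphere_zero_iff_norm] at h
      have h2 : ‖(x.2 : Eu (q + 1))‖ ^ 2 = 1 := by rw [h]; norm_num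
      rw [EuclideanSpace.norm_sq_eq] at h2
      rw [Equiv.sum_comp ix (fun j => crd j x.2 ^ 2)]
      simpa [crd] using h2
    unit := fun j x => by
      obtain ⟨y, hy⟩ := pr_surj x.1
      rw [← hy, lft_pr]
      exact P.unit _
    le := fun j x => by
      obtain ⟨y, hy⟩ := pr_surj x.1
      rw [← hy, lft_pr]
      exact P.le _
    orth := fun j x v => by
      obtain ⟨y, hy⟩ := pr_surj x.1
      rw [dd_fst3 (lft_smooth _ (pg j) (sg j)), ← hy, lft_pr, lft_dd _ (pg j) (sg j),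
        fderiv_lin P.hg]
      exact P.orth _ _
    shape := fun j x v => by
      obtain ⟨y, hy⟩ := pr_surj x.1
      rw [dd_fst3 (lft_smooth _ (pg j) (sg j)), dd_fst3 (lft_smooth _ (pν j) (sν j)), ← hy,
        lft_dd _ (pg j) (sg j), lft_dd _ (pν j) (sν j), fderiv_lin P.hg, fderiv_lin P.hν]
      exact P.shape _ _
    inj := fun x v hUv hGv => by
      obtain ⟨y, hy⟩ := pr_surj x.1
      apply Prod.ext
      · ext j
        obtain ⟨⟨j0, i⟩, rfl⟩ := ε.surjective j
        have h := hGv j0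
        rw [dd_fst3 (lft_smooth _ (pg j0) (sg j0)), ← hy, lft_dd _ (pg j0) (sg j0),
          fderiv_lin P.hg] at h
        have h2 := P.inj _ _ h
        exact congrArg (fun w : Eu a => w i) h2
      · apply coe_inj x.2
        ext j
        have h := hUv (ix.symm j)
        rw [Equiv.apply_symm_apply, dd_snd2 (crd_smooth j), dd_crd] at h
        exact h }

/-- the cup-length of `T^(p+1) × S^q` is at least `l + 1` for `l ≤ p` -/
theorem cupLength' (p q l : ℕ) (hlp : l ≤ p) : CupLengthAtLeast ℝ (YY p q) (l + 1) := by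
  let u0 : Sp q := ⟨EuclideanSpace.single 0 1, by simp⟩
  let ex : (Fin (l + 1) → ℝ) → Eu (p + 1) := fun x =>
    WithLp.toLp 2 fun i => if h : (i : ℕ) < l + 1 then x ⟨i, h⟩ else 0
  have hex : Continuous ex := by
    apply (PiLp.continuous_toLp 2 _).comp
    refine continuous_pi fun i => ?_
    by_cases h : (i : ℕ) < l + 1
    · simp only [h, dif_pos]
      exact continuous_apply _
    · simp only [h, dif_neg, not_false_eq_true]
      exact continuous_const
  let s : C(Fin (l + 1) → ℝ, YY p q) :=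
    ⟨fun x => (pr (ex x), u0), (covering.continuous.comp hex).prodMk continuous_const⟩
  let c0 : Fin (p + 1) → Tr (p + 1) → AddCircle (1 : ℝ) := fun j =>
    Quotient.lift (fun x : Eu (p + 1) => ((x j : ℝ) : AddCircle (1 : ℝ))) (by
      intro a b hab
      have h : -a + b ∈ lat (p + 1) := QuotientAddGroup.leftRel_apply.1 hab
      obtain ⟨k, hk⟩ := h j
      have h1 : b j = a j + k := by
        rw [PiLp.add_apply, PiLp.neg_apply] at hk
        linarith
      change ((a j : ℝ) : AddCircle (1 : ℝ)) = ((b j : ℝ) : AddCircle (1 : ℝ))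
      rw [h1, AddCircle.coe_add]
      have h2 : ((k : ℝ) : AddCircle (1 : ℝ)) = 0 := (AddCircle.coe_eq_zero_iff 1).2 ⟨k, by simp⟩
      rw [h2, add_zero])
  have hc0 : ∀ j, Continuous (c0 j) := fun j =>
    (covering.isQuotientMap pr_surj).continuous_iff.2
      ((AddCircle.continuous_mk' (p := (1 : ℝ))).comp
        (EuclideanSpace.proj (𝕜 := ℝ) (ι := Fin (p + 1)) j).continuous)
  refine cupLength_of_torus s ?_
    (fun j => ⟨fun x => c0 (Fin.castLE (by omega) j) x.1, (hc0 _).comp continuous_fst⟩) ?_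
  · intro x j
    change ((pr _, u0) : YY p q) = (pr _, u0)
    congr 1
    rw [pr_eq_iff]
    intro i
    refine ⟨if (i : ℕ) = j then -1 else 0, ?_⟩
    by_cases h : (i : ℕ) < l + 1
    · have e1 : ∀ y, ex y i = y ⟨i, h⟩ := fun y => dif_pos h
      by_cases h2 : (i : ℕ) = j
      · have h3 : (⟨i, h⟩ : Fin (l + 1)) = j := Fin.ext h2
        rw [if_pos h2]
        simp [e1, h3]
      · have h3 : (⟨i, h⟩ : Fin (l + 1)) ≠ j := fun hh => h2 (by rw [← hh])
        rw [if_neg h2]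
        simp [e1, Pi.single_apply, h3]
    · have e1 : ∀ y, ex y i = 0 := fun y => dif_neg h
      have h2 : (i : ℕ) ≠ j := by
        have := j.2
        omega
      rw [if_neg h2]
      simp [e1]
  · intro j x
    change ((ex x (Fin.castLE _ j) : ℝ) : AddCircle (1 : ℝ)) = _
    have e1 : ex x (Fin.castLE (by omega : l + 1 ≤ p + 1) j) = x j := dif_pos j.2
    rw [e1]

end Pool.Agent.Y30.TT
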