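import Pool.Agent.W556.TubeImm

/-! The boundary of the tube around the Clifford torus `T^l ⊆ ℝ^(2l) ⊆ ℝ^(2l+s)`. -/

open Set Filter Topology
open scoped Manifold ContDiff ENNReal

namespace Pool.Agent.Y30.TT

open Pool.Agent.W556 Pool.Agent.W556.Tube

structure Data (V X : Type) [NormedAddCommGroup V] [NormedSpace ℝ V] [TopologicalSpace X]
    [ChartedSpace V X] (l s N : ℕ) where
  e : Fin N ≃ (Fin l × Fin 2) ⊕ Fin s
  U : Fin l ⊕ Fin s → X → ℝ
  W : Fin 2 → Fin l → X → ℝ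
  hU : ∀ j, ContMDiff 𝓘(ℝ, V) 𝓘(ℝ, ℝ) ∞ (U j)
  hW : ∀ b j, ContMDiff 𝓘(ℝ, V) 𝓘(ℝ, ℝ) ∞ (W b j)
  hU1 : ∀ x, ∑ j, U j x ^ 2 = 1
  hW1 : ∀ j x, W 0 j x ^ 2 + W 1 j x ^ 2 = 1
  inj : ∀ x (v : V), (∀ j, dd V (U j) x v = 0) →
    (∀ b j, dd V (W b j) x v = 0) → v = 0
  dim : Module.finrank ℝ V + 1 = N

variable {V X : Type} [NormedAddCommGroup V] [NormedSpace ℝ V] [TopologicalSpace X]
    [ChartedSpace V X] {l s N : ℕ}

namespace Data

variable (D : Data V X l s N) (r : ℝ)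

/-- coordinates of the map -/
noncomputable def fc (x : X) : (Fin l × Fin 2) ⊕ Fin s → ℝ
  | .inl p => (2 * r + r * D.U (.inl p.1) x) * D.W p.2 p.1 x
  | .inr a => r * D.U (.inr a) x

/-- the map -/
noncomputable def f (x : X) : EuclideanSpace ℝ (Fin N) := WithLp.toLp 2 fun i => D.fc r x (D.e i)

/-- coordinates of the normal -/
noncomputable def nc (x : X) : (Fin l × Fin 2) ⊕ Fin s → ℝ
  | .inl p => D.U (.inl p.1) x * D.W p.2 p.1 x
  | .inr a => D.U (.inr a) x

/-- the normal -/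
noncomputable def nrm (x : X) : EuclideanSpace ℝ (Fin N) := WithLp.toLp 2 fun i => D.nc x (D.e i)

/-- coordinates of the differential -/
noncomputable def dc (x : X) (v : V) : (Fin l × Fin 2) ⊕ Fin s → ℝ
  | .inl p => r * dd V (D.U (.inl p.1)) x v * D.W p.2 p.1 x +
      (2 * r + r * D.U (.inl p.1) x) * dd V (D.W p.2 p.1) x v
  | .inr a => r * dd V (D.U (.inr a)) x v

theorem fc_smooth (p : (Fin l × Fin 2) ⊕ Fin s) :
    ContMDiff 𝓘(ℝ, V) 𝓘(ℝ, ℝ) ∞ (fun x => D.fc r x p) := by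
  rcases p with p | a
  · have h1 : ContMDiff 𝓘(ℝ, V) 𝓘(ℝ, ℝ) ∞ (fun x => 2 * r + r * D.U (.inl p.1) x) := by
      have h2 : ContDiff ℝ ∞ (fun s : ℝ => 2 * r + r * s) := by fun_prop
      exact h2.contMDiff.comp (D.hU _)
    exact h1.mul (D.hW _ _)
  · have h2 : ContDiff ℝ ∞ (fun s : ℝ => r * s) := by fun_prop
    exact h2.contMDiff.comp (D.hU _)

theorem f_smooth : ContMDiff 𝓘(ℝ, V) 𝓘(ℝ, EuclideanSpace ℝ (Fin N)) ∞ (D.f r) := by
  have h1 : ContMDiff 𝓘(ℝ, V) 𝓘(ℝ, Fin N → ℝ) ∞ (fun x i => D.fc r x (D.e i)) :=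
    contMDiff_pi_space.2 fun i => D.fc_smooth r (D.e i)
  have h2 : ContDiff ℝ ∞ (WithLp.toLp 2 : (Fin N → ℝ) → EuclideanSpace ℝ (Fin N)) :=
    (PiLp.continuousLinearEquiv 2 ℝ (fun _ : Fin N => ℝ)).symm.contDiff
  exact h2.contMDiff.comp h1

theorem sum_e (G : Fin N → ℝ) (F : (Fin l × Fin 2) ⊕ Fin s → ℝ) (h : ∀ i, G i = F (D.e i)) :
    ∑ i, G i = (∑ j, ∑ b, F (.inl (j, b))) + ∑ a, F (.inr a) := by
  rw [← Fintype.sum_prod_type' (f := fun j b => F (.inl (j, b))), ← Fintype.sum_sum_type,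
    ← Equiv.sum_comp D.e]
  exact Finset.sum_congr rfl fun i _ => h i

/-- derivative of the `i`-th coordinate -/
theorem diff_apply (x : X) (v : V) (i : Fin N) :
    differential V (D.f r) x v i = D.dc r x v (D.e i) := by
  have h1 := hasFDerivAt_chart (D.f_smooth r) x
  have h2 := (EuclideanSpace.proj (𝕜 := ℝ) (ι := Fin N) i).hasFDerivAt.comp
    (extChartAt 𝓘(ℝ, V) x x) h1
  have hx : (extChartAt 𝓘(ℝ, V) x).symm (extChartAt 𝓘(ℝ, V) x x) = x := extChartAt_to_inv x
  rcases hp : D.e i with p | a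
  · have hU := hasFDerivAt_chart (D.hU (.inl p.1)) x
    have hW := hasFDerivAt_chart (D.hW p.2 p.1) x
    have h3 := ((hU.const_mul r).const_add (2 * r)).mul hW
    have hfun : ((EuclideanSpace.proj (𝕜 := ℝ) (ι := Fin N) i) ∘
        fun y => D.f r ((extChartAt 𝓘(ℝ, V) x).symm y)) =
        (fun y => (2 * r + r * D.U (.inl p.1) ((extChartAt 𝓘(ℝ, V) x).symm y)) *
          D.W p.2 p.1 ((extChartAt 𝓘(ℝ, V) x).symm y)) := by
      funext y
      change D.fc r _ (D.e i) = _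
      rw [hp]
      rfl
    rw [hfun] at h2
    have h4 := h2.unique h3
    have h5 := congrArg (fun L : V →L[ℝ] ℝ => L v) h4
    simp only [ContinuousLinearMap.comp_apply, add_apply,
      smul_apply, smul_eq_mul, hx] at h5
    have h6 : differential V (D.f r) x v i = _ := h5
    rw [h6]
    simp only [dc]
    ring
  · have hU := hasFDerivAt_chart (D.hU (.inr a)) x
    have h3 := hU.const_mul r
    have hfun : ((EuclideanSpace.proj (𝕜 := ℝ) (ι := Fin N) i) ∘
        fun y => D.f r ((extChartAt 𝓘(ℝ, V) x).symm y)) =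
        (fun y => r * D.U (.inr a) ((extChartAt 𝓘(ℝ, V) x).symm y)) := by
      funext y
      change D.fc r _ (D.e i) = _
      rw [hp]
      rfl
    rw [hfun] at h2
    have h4 := h2.unique h3
    have h5 := congrArg (fun L : V →L[ℝ] ℝ => L v) h4
    simp only [ContinuousLinearMap.comp_apply, smul_apply, smul_eq_mul] at h5
    exact h5

theorem sum_U_dU (x : X) (v : V) :
    ∑ j, D.U j x * dd V (D.U j) x v = 0 := by
  have hx : (extChartAt 𝓘(ℝ, V) x).symm (extChartAt 𝓘(ℝ, V) x x) = x := extChartAt_to_inv x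
  have h1 : HasFDerivAt (fun y => ∑ j, D.U j ((extChartAt 𝓘(ℝ, V) x).symm y) *
      D.U j ((extChartAt 𝓘(ℝ, V) x).symm y)) _ (extChartAt 𝓘(ℝ, V) x x) :=
    HasFDerivAt.fun_sum fun j _ => (hasFDerivAt_chart (D.hU j) x).mul (hasFDerivAt_chart (D.hU j) x)
  have h2 : HasFDerivAt (fun y => ∑ j, D.U j ((extChartAt 𝓘(ℝ, V) x).symm y) *
      D.U j ((extChartAt 𝓘(ℝ, V) x).symm y)) (0 : V →L[ℝ] ℝ) (extChartAt 𝓘(ℝ, V) x x) := by
    have : (fun y => ∑ j, D.U j ((extChartAt 𝓘(ℝ, V) x).symm y) *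
      D.U j ((extChartAt 𝓘(ℝ, V) x).symm y)) = fun _ => (1 : ℝ) := by
      funext y
      rw [← D.hU1 ((extChartAt 𝓘(ℝ, V) x).symm y)]
      exact Finset.sum_congr rfl fun j _ => (sq _).symm
    rw [this]
    exact hasFDerivAt_const _ _
  have h3 := congrArg (fun L : V →L[ℝ] ℝ => L v) (h1.unique h2)
  simp only [sum_apply, add_apply,
    smul_apply, smul_eq_mul, hx, zero_apply] at h3
  simp_rw [← two_mul] at h3
  rw [← Finset.mul_sum] at h3
  linarith

theorem sum_W_dW (j : Fin l) (x : X) (v : V) :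
    D.W 0 j x * dd V (D.W 0 j) x v +
      D.W 1 j x * dd V (D.W 1 j) x v = 0 := by
  have hx : (extChartAt 𝓘(ℝ, V) x).symm (extChartAt 𝓘(ℝ, V) x x) = x := extChartAt_to_inv x
  have h1 := ((hasFDerivAt_chart (D.hW 0 j) x).fun_mul (hasFDerivAt_chart (D.hW 0 j) x)).fun_add
    ((hasFDerivAt_chart (D.hW 1 j) x).fun_mul (hasFDerivAt_chart (D.hW 1 j) x))
  have h2 : HasFDerivAt (fun y => D.W 0 j ((extChartAt 𝓘(ℝ, V) x).symm y) *
      D.W 0 j ((extChartAt 𝓘(ℝ, V) x).symm y) + D.W 1 j ((extChartAt 𝓘(ℝ, V) x).symm y) *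
      D.W 1 j ((extChartAt 𝓘(ℝ, V) x).symm y)) (0 : V →L[ℝ] ℝ) (extChartAt 𝓘(ℝ, V) x x) := by
    have : (fun y => D.W 0 j ((extChartAt 𝓘(ℝ, V) x).symm y) *
      D.W 0 j ((extChartAt 𝓘(ℝ, V) x).symm y) + D.W 1 j ((extChartAt 𝓘(ℝ, V) x).symm y) *
      D.W 1 j ((extChartAt 𝓘(ℝ, V) x).symm y)) = fun _ => (1 : ℝ) := by
      funext y
      rw [← D.hW1 j ((extChartAt 𝓘(ℝ, V) x).symm y)]
      ring
    rw [this]
    exact hasFDerivAt_const _ _
  have h3 := congrArg (fun L : V →L[ℝ] ℝ => L v) (h1.unique h2)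
  simp only [add_apply,
    smul_apply, smul_eq_mul, hx, zero_apply] at h3
  linarith

theorem U_le (x : X) (j : Fin l ⊕ Fin s) : |D.U j x| ≤ 1 := by
  have h7 : D.U j x ^ 2 ≤ 1 := by
    rw [← D.hU1 x]
    exact Finset.single_le_sum (f := fun j => D.U j x ^ 2) (fun i _ => sq_nonneg _)
      (Finset.mem_univ j)
  exact abs_le_one_iff_mul_self_le_one.2 (by nlinarith)

theorem rho_pos {r : ℝ} (hr : 0 < r) (x : X) (j : Fin l ⊕ Fin s) : 0 < 2 * r + r * D.U j x := by
  have := abs_le.1 (D.U_le x j)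
  nlinarith

theorem immersion {r : ℝ} (hr : 0 < r) : IsImmersion V (D.f r) := by
  refine ⟨D.f_smooth r, fun x => ?_⟩
  rw [injective_iff_map_eq_zero]
  intro v hv
  have h0 : ∀ p, D.dc r x v p = 0 := by
    intro p
    have h := D.diff_apply r x v (D.e.symm p)
    rw [hv] at h
    simp only [Equiv.apply_symm_apply, PiLp.zero_apply] at h
    exact h.symm
  have hi : ∀ j b, r * dd V (D.U (.inl j)) x v * D.W b j x +
      (2 * r + r * D.U (.inl j) x) * dd V (D.W b j) x v = 0 := fun j b => h0 (.inl (j, b))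
  have hdU : ∀ j, dd V (D.U j) x v = 0 := by
    rintro (j | a)
    · have h0 := hi j 0
      have h1 := hi j 1
      have h2 := D.sum_W_dW j x v
      have h3 := D.hW1 j x
      have h4 : r * dd V (D.U (.inl j)) x v = 0 := by
        linear_combination D.W 0 j x * h0 + D.W 1 j x * h1 - (2 * r + r * D.U (.inl j) x) * h2 -
          (r * dd V (D.U (.inl j)) x v) * h3
      exact (mul_eq_zero.1 h4).resolve_left hr.ne'
    · have h4 : r * dd V (D.U (.inr a)) x v = 0 := h0 (.inr a)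
      exact (mul_eq_zero.1 h4).resolve_left hr.ne'
  refine D.inj x v hdU fun b j => ?_
  have h := hi j b
  rw [hdU (.inl j)] at h
  simp only [mul_zero, zero_mul, zero_add] at h
  exact (mul_eq_zero.1 h).resolve_left (D.rho_pos hr x _).ne'

theorem nrm_norm (x : X) : ‖D.nrm x‖ = 1 := by
  have h : ‖D.nrm x‖ ^ 2 = 1 := by
    rw [EuclideanSpace.norm_sq_eq]
    rw [D.sum_e _ (fun p => D.nc x p ^ 2) (fun i => by rw [Real.norm_eq_abs, sq_abs]; rfl)]
    have h1 : ∀ j, ∑ b : Fin 2, D.nc x (.inl (j, b)) ^ 2 = D.U (.inl j) x ^ 2 := by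
      intro j
      rw [Fin.sum_univ_two]
      have h2 := D.hW1 j x
      simp only [nc]
      linear_combination (D.U (.inl j) x ^ 2) * h2
    simp_rw [h1]
    have h3 := D.hU1 x
    rw [Fintype.sum_sum_type] at h3
    exact h3
  have h0 := norm_nonneg (D.nrm x)
  nlinarith

theorem nrm_mem {r : ℝ} (x : X) : D.nrm x ∈ normalSpace V (D.f r) x := by
  rw [normalSpace, Submodule.mem_orthogonal]
  rintro _ ⟨v, rfl⟩
  change inner ℝ (differential V (D.f r) x v) (D.nrm x) = 0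
  rw [PiLp.inner_apply]
  rw [D.sum_e _ (fun p => D.nc x p * D.dc r x v p) (fun i => by
    rw [D.diff_apply]
    simp only [RCLike.inner_apply, conj_trivial]
    rfl)]
  have h2 : ∀ j, ∑ b : Fin 2, D.nc x (.inl (j, b)) * D.dc r x v (.inl (j, b)) =
      r * (D.U (.inl j) x * dd V (D.U (.inl j)) x v) := by
    intro j
    rw [Fin.sum_univ_two]
    have e1 := D.hW1 j x
    have e2 := D.sum_W_dW j x v
    simp only [nc, dc]
    linear_combination (D.U (.inl j) x * r * dd V (D.U (.inl j)) x v) * e1 +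
      (D.U (.inl j) x * (2 * r + r * D.U (.inl j) x)) * e2
  have h3 : ∀ a, D.nc x (.inr a) * D.dc r x v (.inr a) =
      r * (D.U (.inr a) x * dd V (D.U (.inr a)) x v) := by
    intro a
    simp only [nc, dc]
    ring
  simp_rw [h2, h3]
  rw [← Finset.mul_sum, ← Finset.mul_sum, ← mul_add]
  have h4 := D.sum_U_dU x v
  rw [Fintype.sum_sum_type] at h4
  rw [h4, mul_zero]

theorem finrank_normal {r : ℝ} (hr : 0 < r) (x : X) :
    Module.finrank ℝ (normalSpace V (D.f r) x) = 1 := by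
  have h1 := Submodule.finrank_add_finrank_orthogonal
    (LinearMap.range (differential V (D.f r) x).toLinearMap)
  rw [LinearMap.finrank_range_of_inj ((D.immersion hr).2 x), finrank_euclideanSpace,
    Fintype.card_fin] at h1
  have h0 := D.dim
  have h2 : Module.finrank ℝ (LinearMap.range (differential V (D.f r) x).toLinearMap)ᗮ = 1 := by
    omega
  exact h2

theorem proj_norm {r : ℝ} (hr : 0 < r) (x : X) (z : EuclideanSpace ℝ (Fin N)) :
    ‖(normalSpace V (D.f r) x).starProjection z‖ = |inner ℝ (D.nrm x) z| := by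
  set K := normalSpace V (D.f r) x with hK
  have h1 := D.finrank_normal hr x
  have hn : D.nrm x ∈ K := D.nrm_mem x
  have hn0 : (⟨D.nrm x, hn⟩ : K) ≠ 0 := by
    intro h
    have h2 := congrArg Subtype.val h
    have h3 := D.nrm_norm x
    have h4 : D.nrm x = 0 := h2
    rw [h4, norm_zero] at h3
    exact zero_ne_one h3
  obtain ⟨c, hc⟩ := exists_smul_eq_of_finrank_eq_one h1 hn0 ⟨K.starProjection z, K.starProjection_apply_mem z⟩
  have hc' : c • D.nrm x = K.starProjection z := congrArg Subtype.val hc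
  have h5 : inner ℝ (D.nrm x) z = c := by
    have h6 : inner ℝ (D.nrm x) (z - K.starProjection z) = 0 :=
      (Submodule.mem_orthogonal K _).1 (K.sub_starProjection_mem_orthogonal z) _ hn
    rw [inner_sub_right, sub_eq_zero] at h6
    rw [h6, ← hc', inner_smul_right, real_inner_self_eq_norm_sq, D.nrm_norm]
    ring
  rw [h5, ← hc', norm_smul, D.nrm_norm, mul_one, Real.norm_eq_abs]

end Data

/-- the one-variable computation, with additional plain coordinates -/
theorem core {r : ℝ} (hr : 0 < r) (u : Fin l ⊕ Fin s → ℝ → ℝ) (w : Fin 2 → Fin l → ℝ → ℝ)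
    (hu : ∀ j, ContDiff ℝ ∞ (u j)) (hw : ∀ b j, ContDiff ℝ ∞ (w b j))
    (hu1 : ∀ t, ∑ j, u j t ^ 2 = 1) (hw1 : ∀ j t, w 0 j t ^ 2 + w 1 j t ^ 2 = 1)
    (hsp : (∑ j, ∑ b, (deriv (fun t => (2 * r + r * u (.inl j) t) * w b j t) 0) ^ 2) +
      ∑ a, (deriv (fun t => r * u (.inr a) t) 0) ^ 2 = 1) :
    |(∑ j, ∑ b, u (.inl j) 0 * w b j 0 *
        deriv (deriv (fun t => (2 * r + r * u (.inl j) t) * w b j t)) 0) +
      ∑ a, u (.inr a) 0 * deriv (deriv (fun t => r * u (.inr a) t)) 0| ≤ 1 / r := by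
  let E : Fin l ⊕ Fin s ≃ Fin (l + s) := finSumFinEquiv
  let w' : Fin 2 → Fin l ⊕ Fin s → ℝ → ℝ := fun b q =>
    Sum.elim (fun j => w b j) (fun _ => fun _ => if b = 0 then 1 else 0) q
  have hd1 : ∀ a, deriv (fun t => (2 * r + r * u (.inr a) t) * w' 0 (.inr a) t) =
      deriv (fun t => r * u (.inr a) t) := by
    intro a
    funext t
    have h1 : (fun t => (2 * r + r * u (.inr a) t) * w' 0 (.inr a) t) =
        fun t => 2 * r + r * u (.inr a) t := by
      funext t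
      simp [w']
    rw [h1, deriv_const_add]
  have hd2 : ∀ a, deriv (fun t => (2 * r + r * u (.inr a) t) * w' 1 (.inr a) t) =
      fun _ => 0 := by
    intro a
    have h1 : (fun t => (2 * r + r * u (.inr a) t) * w' 1 (.inr a) t) =
        fun _ => (0 : ℝ) := by
      funext t
      simp [w']
    rw [h1]
    funext t
    simp
  have h := Pool.Agent.W556.Tube.core (l := l + s) hr (fun j => u (E.symm j))
    (fun b j => w' b (E.symm j)) (fun j => hu _) (fun b j => by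
      rcases E.symm j with q | a
      · exact hw b q
      · exact contDiff_const) (fun t => by
      rw [Equiv.sum_comp E.symm (fun q => u q t ^ 2)]
      exact hu1 t) (fun j t => by
      rcases E.symm j with q | a
      · exact hw1 q t
      · simp [w']) (by
      rw [Equiv.sum_comp E.symm (fun q => ∑ b, (deriv (fun t => (2 * r + r * u q t) * w' b q t) 0) ^ 2),
        Fintype.sum_sum_type]
      rw [← hsp]
      congr 1
      refine Finset.sum_congr rfl fun a _ => ?_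
      rw [Fin.sum_univ_two, hd1, hd2]
      ring)
  rw [Equiv.sum_comp E.symm (fun q => ∑ b, u q 0 * w' b q 0 *
    deriv (deriv (fun t => (2 * r + r * u q t) * w' b q t)) 0), Fintype.sum_sum_type] at h
  have h2 : ∀ a, ∑ b, u (.inr a) 0 * w' b (.inr a) 0 *
      deriv (deriv (fun t => (2 * r + r * u (.inr a) t) * w' b (.inr a) t)) 0 =
      u (.inr a) 0 * deriv (deriv (fun t => r * u (.inr a) t)) 0 := by
    intro a
    rw [Fin.sum_univ_two, hd1, hd2]
    simp [w']
  simp_rw [h2] at h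
  exact h

namespace Data

variable (D : Data V X l s N) (r : ℝ)

theorem curvature_le {r : ℝ} (hr : 0 < r) : curvature V (D.f r) ≤ ENNReal.ofReal (1 / r) := by
  refine iSup_le fun γ => iSup_le fun hγ => iSup_le fun hsp => ?_
  apply ENNReal.ofReal_le_ofReal
  rw [D.proj_norm hr]
  have hg : ContDiff ℝ ∞ (D.f r ∘ γ) := Pool.Agent.W556.Tube.Data.comp_smooth (D.f_smooth r) hγ
  have hg1 : Differentiable ℝ (D.f r ∘ γ) := hg.differentiable (by simp)
  have hg2 : Differentiable ℝ (deriv (D.f r ∘ γ)) :=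
    ((contDiff_infty_iff_deriv.1 hg).2).differentiable (by simp)
  have hu : ∀ j, ContDiff ℝ ∞ (fun t => D.U j (γ t)) := fun j =>
    Pool.Agent.W556.Tube.Data.comp_smooth (D.hU j) hγ
  have hw : ∀ b j, ContDiff ℝ ∞ (fun t => D.W b j (γ t)) := fun b j =>
    Pool.Agent.W556.Tube.Data.comp_smooth (D.hW b j) hγ
  have e1 : ∀ i t, (deriv (D.f r ∘ γ) t) i = deriv (fun t => D.fc r (γ t) (D.e i)) t := by
    intro i t
    rw [Pool.Agent.W556.Tube.Data.deriv_coord hg1]
    rfl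
  have e2 : ∀ i, (deriv (deriv (D.f r ∘ γ)) 0) i =
      deriv (deriv (fun t => D.fc r (γ t) (D.e i))) 0 := by
    intro i
    rw [Pool.Agent.W556.Tube.Data.deriv_coord hg2]
    congr 1
    funext t
    exact e1 i t
  have hcore := core hr (fun j t => D.U j (γ t)) (fun b j t => D.W b j (γ t)) hu hw
    (fun t => D.hU1 _) (fun j t => D.hW1 j _) (by
      have h1 : ‖deriv (D.f r ∘ γ) 0‖ ^ 2 = 1 := by rw [hsp]; norm_num
      rw [EuclideanSpace.norm_sq_eq] at h1
      rw [D.sum_e _ (fun p => (deriv (fun t => D.fc r (γ t) p) 0) ^ 2) (fun i => by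
        rw [Real.norm_eq_abs, sq_abs, e1])] at h1
      exact h1)
  have h3 : inner ℝ (D.nrm (γ 0)) (deriv (deriv (D.f r ∘ γ)) 0) =
      (∑ j, ∑ b, D.U (.inl j) (γ 0) * D.W b j (γ 0) *
        deriv (deriv (fun t => (2 * r + r * D.U (.inl j) (γ t)) * D.W b j (γ t))) 0) +
      ∑ a, D.U (.inr a) (γ 0) * deriv (deriv (fun t => r * D.U (.inr a) (γ t))) 0 := by
    rw [PiLp.inner_apply]
    rw [D.sum_e _ (fun p => D.nc (γ 0) p * deriv (deriv (fun t => D.fc r (γ t) p)) 0) (fun i => by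
      rw [e2]
      simp only [RCLike.inner_apply, conj_trivial]
      change _ * D.nc (γ 0) (D.e i) = _
      ring)]
    rfl
  rw [h3]
  exact hcore

theorem norm_le {r : ℝ} (hr : 0 < r) (hr1 : r * (2 * √l + 1) ≤ 1) (x : X) : ‖D.f r x‖ ≤ 1 := by
  have hU1 := D.hU1 x
  rw [Fintype.sum_sum_type] at hU1
  have hsq : ‖D.f r x‖ ^ 2 = r ^ 2 * (4 * l + 4 * ∑ j, D.U (.inl j) x + 1) := by
    rw [EuclideanSpace.norm_sq_eq]
    rw [D.sum_e _ (fun p => D.fc r x p ^ 2) (fun i => by rw [Real.norm_eq_abs, sq_abs]; rfl)]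
    have h1 : ∀ j, ∑ b : Fin 2, D.fc r x (.inl (j, b)) ^ 2 =
        r ^ 2 * (4 + 4 * D.U (.inl j) x + D.U (.inl j) x ^ 2) := by
      intro j
      rw [Fin.sum_univ_two]
      have h2 := D.hW1 j x
      simp only [fc]
      linear_combination ((2 * r + r * D.U (.inl j) x) ^ 2) * h2
    have h2 : ∀ a, D.fc r x (.inr a) ^ 2 = r ^ 2 * D.U (.inr a) x ^ 2 := by
      intro a
      simp only [fc]
      ring
    simp_rw [h1, h2]
    rw [← Finset.mul_sum, ← Finset.mul_sum, ← mul_add, Finset.sum_add_distrib,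
      Finset.sum_add_distrib, ← Finset.mul_sum]
    congr 1
    simp only [Finset.sum_const, Finset.card_univ, Fintype.card_fin, nsmul_eq_mul]
    linarith
  have hcs : ∑ j, D.U (.inl j) x ≤ √l := by
    apply Real.le_sqrt_of_sq_le
    have h := sq_sum_le_card_mul_sum_sq (s := (Finset.univ : Finset (Fin l)))
      (f := fun j => D.U (.inl j) x)
    have h2 : ∑ j : Fin l, D.U (.inl j) x ^ 2 ≤ 1 := by
      have h3 : 0 ≤ ∑ a : Fin s, D.U (.inr a) x ^ 2 := Finset.sum_nonneg fun _ _ => sq_nonneg _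
      linarith
    have h4 : (0 : ℝ) ≤ l := by positivity
    simp only [Finset.card_univ, Fintype.card_fin] at h
    nlinarith
  have hl : (√(l : ℝ)) ^ 2 = l := Real.sq_sqrt (by positivity)
  have h3 : ‖D.f r x‖ ^ 2 ≤ (r * (2 * √l + 1)) ^ 2 := by
    rw [hsq]
    have : r ^ 2 * (4 * l + 4 * ∑ j, D.U (.inl j) x + 1) ≤ r ^ 2 * (4 * l + 4 * √l + 1) := by
      apply mul_le_mul_of_nonneg_left _ (sq_nonneg r)
      linarith
    calc r ^ 2 * (4 * l + 4 * ∑ j, D.U (.inl j) x + 1) ≤ r ^ 2 * (4 * l + 4 * √l + 1) := this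
      _ = (r * (2 * √l + 1)) ^ 2 := by
        rw [mul_pow]
        congr 1
        nlinarith
  have h4 : 0 ≤ r * (2 * √l + 1) := by positivity
  have h5 := norm_nonneg (D.f r x)
  have h6 : ‖D.f r x‖ ≤ r * (2 * √l + 1) := by
    exact (sq_le_sq₀ h5 h4).1 h3
  linarith

end Data

end Pool.Agent.Y30.TT
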